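import Pool.Agent.H95MS.Split

set_option autoImplicit false

/-!
# Cells of matroid subdivisions at a generic point of the facet of the line with four elements
-/

namespace Pool.Agent.H95MS

open Set

/-- the generic point of the facet -/
noncomputable def pt : Fin 9 → ℝ := ![2 / 5, 1 / 2, 3 / 10, 4 / 5, 1 / 5, 1 / 5, 1 / 5, 1 / 5, 1 / 5]

/-- `a` is collinear with the points `4 + x` and `4 + y` -/
def nb (a x y : ℕ) : Bool := !(x == y) && !((LB 0).contains (2 ^ a + 2 ^ (4 + x) + 2 ^ (4 + y)))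

/-- every proper set of points containing `4` has a point collinear with `a` or `b` and a point
outside of it -/
def connB (a b : ℕ) : Bool := (List.range 32).all fun s => !(s.testBit 0) || (s == 31) ||
  (List.range 5).any fun x => (List.range 5).any fun y =>
    s.testBit x && !(s.testBit y) && (nb a x y || nb b x y)

theorem connB_all : ∀ a b : Fin 4, a ≠ b → connB a b = true := by decide +kernel

theorem all_of_conn (a b : Fin 4) (hab : a ≠ b) (P : ℕ → Prop) (h0 : P 0)
    (h : ∀ x y, x < 5 → y < 5 → P x → (nb a x y = true ∨ nb b x y = true) → P y) :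
    ∀ x, x < 5 → P x := by
  classical
  intro z hz
  set s : ℕ := Nat.ofBits (fun i : Fin 5 => decide (P i)) with hs
  have hbit : ∀ i, i < 5 → s.testBit i = decide (P i) := by
    intro i hi
    rw [hs, Nat.testBit_ofBits_lt _ _ hi]
  have hlt : s < 32 := by
    have := Nat.ofBits_lt_two_pow (fun i : Fin 5 => decide (P i))
    simpa [hs] using this
  have hc := connB_all a b hab
  unfold connB at hc
  rw [List.all_eq_true] at hc
  have h1 := hc s (List.mem_range.mpr hlt)
  have hb0 : s.testBit 0 = true := by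
    rw [hbit 0 (by norm_num)]
    simpa using h0
  rw [hb0, Bool.not_true, Bool.false_or, Bool.or_eq_true] at h1
  rcases h1 with h1 | h1
  · have h2 : s = 31 := by simpa using h1
    have h3 := hbit z hz
    rw [h2] at h3
    have h4 : ∀ z, z < 5 → (31 : ℕ).testBit z = true := by decide
    rw [h4 z hz] at h3
    simpa using h3.symm
  · rw [List.any_eq_true] at h1
    obtain ⟨x, hx, h2⟩ := h1
    rw [List.any_eq_true] at h2
    obtain ⟨y, hy, h3⟩ := h2
    rw [List.mem_range] at hx hy
    rw [Bool.and_eq_true, Bool.and_eq_true, Bool.or_eq_true, hbit x hx, hbit y hy] at h3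
    obtain ⟨⟨h4, h5⟩, h6⟩ := h3
    have h7 : P x := by simpa using h4
    have h8 : ¬ P y := by simpa using h5
    exact absurd (h x y hx hy h7 h6) h8

theorem three_bits : ∀ m ∈ LB 0, ∀ u v w : Fin 9, m.testBit u = true → m.testBit v = true →
    m.testBit w = true → u ≠ v → v ≠ w → u ≠ w → m = 2 ^ (u : ℕ) + 2 ^ (v : ℕ) + 2 ^ (w : ℕ) := by
  decide +kernel

section

variable (N : Matroid (Fin 9)) (hE : N.E = univ) (hM : ∀ B, N.IsBase B → ∃ m ∈ LB 0, B = S m)

include hM in
theorem dep_of (u v w : Fin 9) (h1 : u ≠ v) (h2 : v ≠ w) (h3 : u ≠ w)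
    (h : (LB 0).contains (2 ^ (u : ℕ) + 2 ^ (v : ℕ) + 2 ^ (w : ℕ)) = false) :
    ¬ N.Indep {u, v, w} := by
  intro hi
  obtain ⟨B, hB, hsub⟩ := hi.exists_isBase_superset
  obtain ⟨m, hm, rfl⟩ := hM B hB
  have e := three_bits m hm u v w (hsub (by simp)) (hsub (by simp)) (hsub (by simp)) h1 h2 h3
  rw [← e] at h
  have : (LB 0).contains m = true := by simpa using hm
  rw [this] at h
  exact Bool.noConfusion h

include hM in
/-- lower bounds for the rank from a point of the polytope -/
theorem base_of_lt {x : Fin 9 → ℝ} (hx : x ∈ polytope N) (H c : ℕ) (h : (c : ℝ) < fM H x) :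
    ∃ m ∈ LB 0, N.IsBase (S m) ∧ c < pc (H &&& m) := by
  by_contra hcon
  push Not at hcon
  have h1 := le_of_mem (fM H) c (M := N) (fun B hB => by
    obtain ⟨m, hm, rfl⟩ := hM B hB
    rw [fM_S]
    exact_mod_cast hcon m hm hB) hx
  linarith

theorem fM_pt (H : ℕ) : fM H pt = ((H.testBit 0).toNat : ℝ) * (2 / 5) +
    ((H.testBit 1).toNat : ℝ) * (1 / 2) + ((H.testBit 2).toNat : ℝ) * (3 / 10) +
    ((H.testBit 3).toNat : ℝ) * (4 / 5) + ((H.testBit 4).toNat : ℝ) * (1 / 5) +
    ((H.testBit 5).toNat : ℝ) * (1 / 5) + ((H.testBit 6).toNat : ℝ) * (1 / 5) +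
    ((H.testBit 7).toNat : ℝ) * (1 / 5) + ((H.testBit 8).toNat : ℝ) * (1 / 5) := by
  rw [fM_apply]
  simp only [Fin.sum_univ_succ, Fin.sum_univ_zero, pt]
  simp [Fin.succ]
  ring

end

end Pool.Agent.H95MS
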