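import Pool.Agent.H95MS.Comb

set_option autoImplicit false

/-!
# Cells of matroid subdivisions at a generic point of the facet: the combinatorial argument
-/

namespace Pool.Agent.H95MS

open Set

/-- the points of the line with four elements -/
def LL : Set (Fin 9) := {i | i.1 < 4}

/-- the assumptions on the matroid of a cell on the inner side of the facet -/
structure Inner (N : Matroid (Fin 9)) : Prop where
  hE : N.E = univ
  hM : ∀ B, N.IsBase B → ∃ m ∈ LB 0, B = S m
  hp : pt ∈ polytope N
  hq : ∃ y ∈ polytope N, fM 15 y < 2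

variable {N : Matroid (Fin 9)}

theorem two_of_pc : ∀ m ∈ LB 0, ∀ u v : Fin 9, u ≠ v →
    1 < pc ((2 ^ (u : ℕ) ||| 2 ^ (v : ℕ)) &&& m) → m.testBit u = true ∧ m.testBit v = true := by
  decide +kernel

theorem one_of_pc : ∀ m ∈ LB 0, ∀ u : Fin 9, 0 < pc ((2 ^ (u : ℕ)) &&& m) →
    m.testBit u = true := by
  decide +kernel

theorem Inner.pair (h : Inner N) (u v : Fin 9) (huv : u ≠ v)
    (hpt : (1 : ℕ) < fM (2 ^ (u : ℕ) ||| 2 ^ (v : ℕ)) pt) : N.Indep {u, v} := by
  obtain ⟨m, hm, hB, hc⟩ := base_of_lt N h.hM h.hp _ 1 hpt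
  obtain ⟨h1, h2⟩ := two_of_pc m hm u v huv hc
  refine hB.indep.subset ?_
  rintro x (rfl | rfl)
  · exact h1
  · exact h2

theorem Inner.single (h : Inner N) (u : Fin 9)
    (hpt : (0 : ℕ) < fM (2 ^ (u : ℕ)) pt) : N.Indep {u} := by
  obtain ⟨m, hm, hB, hc⟩ := base_of_lt N h.hM h.hp _ 0 (by exact_mod_cast hpt)
  refine hB.indep.subset ?_
  rintro x rfl
  exact one_of_pc m hm _ hc

theorem fM_single (u : Fin 9) : fM (2 ^ (u : ℕ)) pt = pt u := by
  rw [fM_apply, Finset.sum_eq_single u]
  · rw [Nat.testBit_two_pow_self]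
    simp
  · intro b _ hb
    rw [Nat.testBit_two_pow_of_ne]
    · simp
    · intro e
      exact hb (Fin.ext e.symm)
  · intro h
    exact absurd (Finset.mem_univ u) h

theorem pt_pos : ∀ u : Fin 9, 0 < pt u := by
  intro u
  fin_cases u <;> simp [pt]

theorem Inner.nonloop (h : Inner N) (u : Fin 9) : N.Indep {u} := by
  refine h.single u ?_
  rw [fM_single]
  exact_mod_cast pt_pos u

theorem Inner.sub (h : Inner N) (X : Set (Fin 9)) : X ⊆ N.E := h.hE ▸ subset_univ X

theorem encard_S (m : ℕ) : (S m).encard = pc m := by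
  rw [← ncard_S m, Set.Finite.cast_ncard_eq (toFinite _)]

theorem LL_le : ∀ m ∈ LB 0, pc (15 &&& m) ≤ 2 := by decide +kernel

theorem inter_LL (m : ℕ) : S m ∩ LL = S (15 &&& m) := by
  ext i
  simp only [mem_inter_iff, mem_S, LL, Nat.testBit_and]
  have : ∀ i : Fin 9, (15 : ℕ).testBit i = decide (i.1 < 4) := by decide
  rw [this]
  simp [and_comm]

theorem Inner.rkL (h : Inner N) : N.eRk LL ≤ 2 := by
  obtain ⟨I, hI⟩ := N.exists_isBasis LL (h.sub _)
  obtain ⟨B, hB, hIB⟩ := hI.indep.exists_isBase_superset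
  obtain ⟨m, hm, rfl⟩ := h.hM B hB
  rw [← hI.encard_eq_eRk]
  calc I.encard ≤ (S m ∩ LL).encard := Set.encard_le_encard (subset_inter hIB hI.subset)
    _ = (pc (15 &&& m) : ℕ∞) := by rw [inter_LL, encard_S]
    _ ≤ 2 := by exact_mod_cast LL_le m hm

theorem out_aux : ∀ m ∈ LB 0, ∀ x : Fin 9, 4 ≤ x.1 → 2 < pc ((15 ||| 2 ^ (x : ℕ)) &&& m) →
    ∀ i : Fin 9, m.testBit i = true → i.1 < 4 ∨ i = x := by decide +kernel

theorem pt_out : ∀ x : Fin 9, 4 ≤ x.1 → (2 : ℝ) < fM (15 ||| 2 ^ (x : ℕ)) pt := by
  intro x hx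
  have h1 : fM (15 ||| 2 ^ (x : ℕ)) pt = fM 15 pt + fM (2 ^ (x : ℕ)) pt := by
    rw [fM_union_inter]
    have h2 : ∀ x : Fin 9, 4 ≤ x.1 → 15 &&& 2 ^ (x : ℕ) = 0 := by decide
    rw [h2 x hx, fM_zero, add_zero]
  rw [h1, fM_single]
  have h3 : fM 15 pt = 2 := by
    rw [fM_pt]
    have e0 : (15 : ℕ).testBit 0 = true := by decide
    have e1 : (15 : ℕ).testBit 1 = true := by decide
    have e2 : (15 : ℕ).testBit 2 = true := by decide
    have e3 : (15 : ℕ).testBit 3 = true := by decide
    have e4 : (15 : ℕ).testBit 4 = false := by decide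
    have e5 : (15 : ℕ).testBit 5 = false := by decide
    have e6 : (15 : ℕ).testBit 6 = false := by decide
    have e7 : (15 : ℕ).testBit 7 = false := by decide
    have e8 : (15 : ℕ).testBit 8 = false := by decide
    rw [e0, e1, e2, e3, e4, e5, e6, e7, e8]
    norm_num
  rw [h3]
  linarith [pt_pos x]

theorem Inner.out (h : Inner N) (x : Fin 9) (hx : 4 ≤ x.1) : x ∉ N.closure LL := by
  intro hcl
  obtain ⟨m, hm, hB, hc⟩ := base_of_lt N h.hM h.hp (15 ||| 2 ^ (x : ℕ)) 2
    (by exact_mod_cast pt_out x hx)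
  have hsub : S m ⊆ N.closure LL := by
    intro i hi
    rcases out_aux m hm x hx hc i hi with h1 | h1
    · exact N.mem_closure_of_mem (show i ∈ LL from h1) (h.sub _)
    · rw [h1]
      exact hcl
  have h1 : (S m).encard ≤ 2 := by
    calc (S m).encard ≤ N.eRk (N.closure LL) := hB.indep.encard_le_eRk_of_subset hsub
      _ = N.eRk LL := N.eRk_closure_eq _
      _ ≤ 2 := h.rkL
  rw [encard_S, LB_three 0 m hm] at h1
  exact absurd h1 (by decide)

theorem rk2 (w z : Fin 9) (X : Set (Fin 9)) (hX : N.Indep X)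
    (hsub : X ⊆ N.closure {w, z}) : X.encard ≤ 2 := by
  calc X.encard ≤ N.eRk (N.closure {w, z}) := hX.encard_le_eRk_of_subset hsub
    _ = N.eRk {w, z} := N.eRk_closure_eq _
    _ ≤ ({w, z} : Set (Fin 9)).encard := N.eRk_le_encard _
    _ ≤ ({z} : Set (Fin 9)).encard + 1 := Set.encard_insert_le _ _
    _ = 2 := by
      rw [Set.encard_singleton]
      norm_num

theorem rk1 (w : Fin 9) (X : Set (Fin 9)) (hX : N.Indep X)
    (hsub : X ⊆ N.closure {w}) : X.encard ≤ 1 := by
  calc X.encard ≤ N.eRk (N.closure {w}) := hX.encard_le_eRk_of_subset hsub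
    _ = N.eRk {w} := N.eRk_closure_eq _
    _ ≤ ({w} : Set (Fin 9)).encard := N.eRk_le_encard _
    _ = 1 := Set.encard_singleton _

/-- an element making an independent set dependent is in its closure -/
theorem Inner.mem_cl (h : Inner N) {a : Fin 9} {X : Set (Fin 9)} (hX : N.Indep X)
    (hd : ¬ N.Indep (insert a X)) : a ∈ N.closure X := by
  rw [hX.mem_closure_iff]
  left
  exact ⟨hd, h.sub _⟩

/-- an element outside the closure of an independent set extends it -/
theorem Inner.ext (h : Inner N) {a : Fin 9} {X : Set (Fin 9)} (hX : N.Indep X)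
    (hd : a ∉ N.closure X) : N.Indep (insert a X) := by
  by_contra hcon
  exact hd (h.mem_cl hX hcon)

/-- a point of the line and a point outside are independent -/
theorem Inner.in_out (h : Inner N) (a x : Fin 9) (ha : a.1 < 4) (hx : 4 ≤ x.1) :
    N.Indep {x, a} := by
  refine h.ext (h.nonloop a) fun hcl => h.out x hx ?_
  refine N.closure_subset_closure ?_ hcl
  rintro i rfl
  exact ha

theorem LB0_contains_comm (a x y : ℕ) : 2 ^ a + 2 ^ (4 + x) + 2 ^ (4 + y) =
    2 ^ (4 + y) + 2 ^ (4 + x) + 2 ^ a := by ring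

/-- collinear triples with one point of the line -/
theorem Inner.nb_dep (h : Inner N) (a : Fin 4) (x y : ℕ) (hx : x < 5) (hy : y < 5)
    (hn : nb a x y = true) : x ≠ y ∧ ¬ N.Indep {(⟨a.1, by omega⟩ : Fin 9), ⟨4 + x, by omega⟩,
      ⟨4 + y, by omega⟩} := by
  unfold nb at hn
  rw [Bool.and_eq_true] at hn
  obtain ⟨h1, h2⟩ := hn
  have hxy : x ≠ y := by
    intro e
    rw [e] at h1
    simp at h1
  refine ⟨hxy, ?_⟩
  refine dep_of N h.hM _ _ _ ?_ ?_ ?_ ?_
  · intro e
    have := congrArg Fin.val e
    simp at this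
    omega
  · intro e
    have := congrArg Fin.val e
    simp at this
    omega
  · intro e
    have := congrArg Fin.val e
    simp at this
    omega
  · simpa using h2

/-- the main step: a pair of parallel points on the line is impossible -/
theorem Inner.no_parallel (h : Inner N) (a b c d : Fin 4) (hab : a ≠ b) (hcd : c ≠ d)
    (hpar : (⟨b.1, by omega⟩ : Fin 9) ∈ N.closure {(⟨a.1, by omega⟩ : Fin 9)})
    (hac : N.Indep {(⟨a.1, by omega⟩ : Fin 9), ⟨c.1, by omega⟩})
    (had : N.Indep {(⟨a.1, by omega⟩ : Fin 9), ⟨d.1, by omega⟩})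
    (hac' : a ≠ c) (had' : a ≠ d) : False := by
  set a' : Fin 9 := ⟨a.1, by omega⟩ with ha'
  set b' : Fin 9 := ⟨b.1, by omega⟩ with hb'
  set Z := N.closure {a', 4} with hZ
  have haZ : a' ∈ Z := N.mem_closure_of_mem (by simp) (h.sub _)
  have h4Z : (4 : Fin 9) ∈ Z := N.mem_closure_of_mem (by simp) (h.sub _)
  have hbZ : b' ∈ Z := N.closure_subset_closure (by simp) hpar
  -- all outer points are in `Z`
  have hall : ∀ x, x < 5 → ∀ hx : x < 5, (⟨4 + x, by omega⟩ : Fin 9) ∈ Z := by
    refine all_of_conn a b hab (fun x => ∀ hx : x < 5, (⟨4 + x, by omega⟩ : Fin 9) ∈ Z) ?_ ?_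
    · intro _
      exact h4Z
    · intro x y hx hy hPx hnb hy'
      have hxZ := hPx hx
      have step : ∀ e : Fin 4, (⟨e.1, by omega⟩ : Fin 9) ∈ Z → nb e x y = true →
          (⟨4 + y, by omega⟩ : Fin 9) ∈ Z := by
        intro e heZ hne
        obtain ⟨hxy, hdep⟩ := h.nb_dep e x y hx hy hne
        have h1 : N.Indep {(⟨4 + x, by omega⟩ : Fin 9), (⟨e.1, by omega⟩ : Fin 9)} :=
          h.in_out _ _ e.2 (by simp)
        have h2 : (⟨4 + y, by omega⟩ : Fin 9) ∈ N.closure {(⟨4 + x, by omega⟩ : Fin 9),
            (⟨e.1, by omega⟩ : Fin 9)} := by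
          refine h.mem_cl h1 fun hi => hdep ?_
          convert hi using 1
          ext t
          simp only [mem_insert_iff, mem_singleton_iff]
          tauto
        refine N.closure_subset_closure_of_subset_closure ?_ h2
        rintro t (rfl | rfl)
        · exact hxZ
        · exact heZ
      rcases hnb with hnb | hnb
      · exact step a haZ hnb
      · exact step b hbZ hnb
  -- all outer points are parallel to `4`
  have hpar4 : ∀ x, x < 5 → ∀ hx : x < 5,
      (⟨4 + x, by omega⟩ : Fin 9) ∈ N.closure {(4 : Fin 9)} := by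
    refine all_of_conn c d hcd (fun x => ∀ hx : x < 5,
      (⟨4 + x, by omega⟩ : Fin 9) ∈ N.closure {(4 : Fin 9)}) ?_ ?_
    · intro _
      exact N.mem_closure_of_mem (by simp) (h.sub _)
    · intro x y hx hy hPx hnb hy'
      have hxW := hPx hx
      by_contra hyW
      set x' : Fin 9 := ⟨4 + x, by omega⟩ with hx'
      set y' : Fin 9 := ⟨4 + y, by omega⟩ with hy''
      have hyx : y' ∉ N.closure {x'} := by
        intro hcl
        exact hyW (N.closure_subset_closure_of_subset_closure (by
          rintro t rfl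
          exact hxW) hcl)
      have hind : N.Indep {y', x'} := h.ext (h.nonloop x') hyx
      have step : ∀ e : Fin 4, a ≠ e → N.Indep {a', (⟨e.1, by omega⟩ : Fin 9)} →
          nb e x y = true → False := by
        intro e hane hae hne
        obtain ⟨hxy, hdep⟩ := h.nb_dep e x y hx hy hne
        set e' : Fin 9 := ⟨e.1, by omega⟩ with he'
        have heZ : e' ∈ Z := by
          have h2 : e' ∈ N.closure {y', x'} := by
            refine h.mem_cl hind fun hi => hdep ?_
            convert hi using 1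
            ext t
            simp only [mem_insert_iff, mem_singleton_iff]
            tauto
          refine N.closure_subset_closure_of_subset_closure ?_ h2
          rintro t (rfl | rfl)
          · exact hall y hy hy
          · exact hall x hx hx
        have h4out : (4 : Fin 9) ∉ N.closure {a', e'} := by
          intro hcl
          refine h.out 4 (by simp) (N.closure_subset_closure ?_ hcl)
          rintro t (rfl | rfl)
          · exact a.2
          · exact e.2
        have h5 : N.Indep {4, a', e'} := h.ext hae h4out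
        have h6 := rk2 a' 4 _ h5 (by
          rintro t (rfl | rfl | rfl)
          · exact h4Z
          · exact haZ
          · exact heZ)
        have hane' : a' ≠ e' := by
          intro he
          exact hane (Fin.ext (by simpa [ha', he'] using congrArg Fin.val he))
        have h7 : ({4, a', e'} : Set (Fin 9)).encard = 3 := by
          rw [Set.encard_eq_three]
          refine ⟨4, a', e', ?_, ?_, hane', rfl⟩
          · intro he
            have := congrArg Fin.val he
            have h8 := a.2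
            simp [ha'] at this
            omega
          · intro he
            have := congrArg Fin.val he
            have h8 := e.2
            simp [he'] at this
            omega
        rw [h7] at h6
        exact absurd h6 (by decide)
      rcases hnb with hnb | hnb
      · exact step c hac' hac hnb
      · exact step d had' had hnb
  -- the inequality `x(L) ≥ 2` holds for the polytope
  have hout : ∀ u : Fin 9, 4 ≤ u.1 → u ∈ N.closure {(4 : Fin 9)} := by
    intro u hu
    have h1 := hpar4 (u.1 - 4) (by omega) (by omega)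
    have h2 : (⟨4 + (u.1 - 4), by omega⟩ : Fin 9) = u := Fin.ext (by simp; omega)
    rwa [h2] at h1
  have hle : ∀ m ∈ LB 0, N.IsBase (S m) → pc (496 &&& m) ≤ 1 := by
    intro m hm hB
    have h1 : (S m ∩ {i | 4 ≤ i.1}) = S (496 &&& m) := by
      ext i
      simp only [mem_inter_iff, mem_S, Nat.testBit_and, mem_setOf_eq]
      have : ∀ i : Fin 9, (496 : ℕ).testBit i = decide (4 ≤ i.1) := by decide
      rw [this]
      simp [and_comm]
    have h2 := rk1 4 (S m ∩ {i | 4 ≤ i.1}) (hB.indep.subset inter_subset_left)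
      (fun u hu => hout u hu.2)
    rw [h1, encard_S] at h2
    exact_mod_cast h2
  obtain ⟨y, hy, hy2⟩ := h.hq
  have h1 : fM 496 y ≤ (1 : ℕ) := by
    refine le_of_mem (fM 496) _ ?_ hy
    intro B hB
    obtain ⟨m, hm, rfl⟩ := h.hM B hB
    rw [fM_S]
    exact_mod_cast hle m hm hB
  have hbox : Box y := by
    have hsub : polytope N ⊆ polytope (MB 0) := polytope_mono h.hM
    exact (mem_cell0.mp (hsub hy)).1
  have h2 := fM_compl hbox 15
  have h3 : 511 ^^^ 15 = 496 := by decide
  rw [h3] at h2
  push_cast at h1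
  linarith

end Pool.Agent.H95MS
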