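import Pool.Agent.H95MS.Comb2

set_option autoImplicit false

/-!
# The facet of the line with four elements is in every finer matroid subdivision
-/

namespace Pool.Agent.H95MS

open Set

variable {N : Matroid (Fin 9)}

theorem fM_pair (u v : Fin 9) (huv : u ≠ v) (x : Fin 9 → ℝ) :
    fM (2 ^ (u : ℕ) ||| 2 ^ (v : ℕ)) x = fM (2 ^ (u : ℕ)) x + fM (2 ^ (v : ℕ)) x := by
  rw [fM_union_inter]
  have h2 : ∀ u v : Fin 9, u ≠ v → 2 ^ (u : ℕ) &&& 2 ^ (v : ℕ) = 0 := by decide
  rw [h2 u v huv, fM_zero, add_zero]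

theorem fM7 : fM 7 pt = 6 / 5 := by
  rw [fM_pt]
  have e0 : (7 : ℕ).testBit 0 = true := by decide
  have e1 : (7 : ℕ).testBit 1 = true := by decide
  have e2 : (7 : ℕ).testBit 2 = true := by decide
  have e3 : (7 : ℕ).testBit 3 = false := by decide
  have e4 : (7 : ℕ).testBit 4 = false := by decide
  have e5 : (7 : ℕ).testBit 5 = false := by decide
  have e6 : (7 : ℕ).testBit 6 = false := by decide
  have e7 : (7 : ℕ).testBit 7 = false := by decide
  have e8 : (7 : ℕ).testBit 8 = false := by decide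
  rw [e0, e1, e2, e3, e4, e5, e6, e7, e8]
  norm_num

/-- pairs with the point `3` are independent -/
theorem Inner.pair3 (h : Inner N) (a : Fin 4) (ha : a.1 < 3) :
    N.Indep {(⟨a.1, by omega⟩ : Fin 9), (3 : Fin 9)} := by
  have hne : (⟨a.1, by omega⟩ : Fin 9) ≠ 3 := by
    intro e
    have := congrArg Fin.val e
    simp at this
    omega
  refine h.pair _ _ hne ?_
  rw [fM_pair _ _ hne, fM_single, fM_single]
  fin_cases a
  · simp [pt]
    norm_num
  · simp [pt]
    norm_num
  · simp [pt]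
    norm_num
  · simp at ha

/-- all pairs of points of the line are independent -/
theorem Inner.pairs_aux (h : Inner N) (a b c : Fin 4) (ha : a.1 < 3) (hb : b.1 < 3) (hc : c.1 < 3)
    (hab : a ≠ b) (hac : a ≠ c) (hbc : b ≠ c) :
    N.Indep {(⟨b.1, by omega⟩ : Fin 9), (⟨a.1, by omega⟩ : Fin 9)} := by
  by_contra hcon
  set a' : Fin 9 := ⟨a.1, by omega⟩ with ha'
  set b' : Fin 9 := ⟨b.1, by omega⟩ with hb'
  set c' : Fin 9 := ⟨c.1, by omega⟩ with hc'
  have hpar : b' ∈ N.closure {a'} := h.mem_cl (h.nonloop a') hcon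
  have hca : N.Indep {c', a'} := by
    by_contra hcon2
    have hpar2 : c' ∈ N.closure {a'} := h.mem_cl (h.nonloop a') hcon2
    obtain ⟨m, hm, hB, hc2⟩ := base_of_lt N h.hM h.hp 7 1 (by rw [fM7]; norm_num)
    have h1 : S m ∩ {i | i.1 < 3} = S (7 &&& m) := by
      ext i
      simp only [mem_inter_iff, mem_S, Nat.testBit_and, mem_setOf_eq]
      have : ∀ i : Fin 9, (7 : ℕ).testBit i = decide (i.1 < 3) := by decide
      rw [this]
      simp [and_comm]
    have h2 := rk1 a' (S m ∩ {i | i.1 < 3}) (hB.indep.subset inter_subset_left) (by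
      rintro i ⟨-, hi⟩
      have hi' : i.1 < 3 := hi
      have hab' : a.1 ≠ b.1 := fun e => hab (Fin.ext e)
      have hac' : a.1 ≠ c.1 := fun e => hac (Fin.ext e)
      have hbc' : b.1 ≠ c.1 := fun e => hbc (Fin.ext e)
      have : i.1 = a.1 ∨ i.1 = b.1 ∨ i.1 = c.1 := by omega
      rcases this with e | e | e
      · have : i = a' := Fin.ext e
        rw [this]
        exact N.mem_closure_of_mem (by simp) (h.sub _)
      · have : i = b' := Fin.ext e
        rw [this]
        exact hpar
      · have : i = c' := Fin.ext e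
        rw [this]
        exact hpar2)
    rw [h1, encard_S] at h2
    have h3 : pc (7 &&& m) ≤ 1 := by exact_mod_cast h2
    omega
  refine h.no_parallel a b c 3 hab ?_ hpar ?_ ?_ hac ?_
  · intro e
    rw [e] at hc
    simp at hc
  · rw [Set.pair_comm]
    exact hca
  · exact h.pair3 a ha
  · intro e
    rw [e] at ha
    simp at ha

theorem Inner.pairs (h : Inner N) (a b : Fin 9) (ha : a.1 < 4) (hb : b.1 < 4) (hab : a ≠ b) :
    N.Indep {a, b} := by
  have hab' : a.1 ≠ b.1 := fun e => hab (Fin.ext e)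
  by_cases ha3 : a.1 = 3
  · have h1 := h.pair3 ⟨b.1, hb⟩ (by simp; omega)
    have h2 : a = 3 := Fin.ext ha3
    rw [h2, Set.pair_comm]
    exact h1
  by_cases hb3 : b.1 = 3
  · have h1 := h.pair3 ⟨a.1, ha⟩ (by simp; omega)
    have h2 : b = 3 := Fin.ext hb3
    rw [h2]
    exact h1
  have h1 := h.pairs_aux ⟨b.1, hb⟩ ⟨a.1, ha⟩ ⟨3 - a.1 - b.1, by omega⟩ (by simp; omega)
    (by simp; omega) (by simp; omega) (by
      intro e
      exact hab' (congrArg Fin.val e).symm) (by
      intro e
      have := congrArg Fin.val e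
      simp at this
      omega) (by
      intro e
      have := congrArg Fin.val e
      simp at this
      omega)
  exact h1

/-- the bases of the facet -/
def FL : List ℕ := [
    19, 21, 22, 25, 26, 28, 35, 37, 38, 41, 42, 44, 67, 69, 70, 73, 74, 76, 131, 133, 134, 137,
    138, 140, 259, 261, 262, 265, 266, 268]

theorem FL_split : ∀ m ∈ FL, ∃ a b x : Fin 9, a.1 < 4 ∧ b.1 < 4 ∧ 4 ≤ x.1 ∧ a ≠ b ∧
    ∀ i : Fin 9, m.testBit i = true ↔ i = x ∨ i = a ∨ i = b := by decide +kernel

theorem Inner.facet (h : Inner N) : ∀ m ∈ FL, N.IsBase (S m) := by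
  intro m hm
  obtain ⟨a, b, x, ha, hb, hx, hab, hS⟩ := FL_split m hm
  have h1 : S m = {x, a, b} := by
    ext i
    rw [mem_S, hS]
    simp
  have h2 : N.Indep {x, a, b} := by
    refine h.ext (h.pairs a b ha hb hab) fun hcl => h.out x hx (N.closure_subset_closure ?_ hcl)
    rintro i (rfl | rfl)
    · exact ha
    · exact hb
  obtain ⟨B, hB, hsub⟩ := h2.exists_isBase_superset
  obtain ⟨k, hk, rfl⟩ := h.hM B hB
  have h3 : (S m).ncard = 3 := by
    rw [ncard_S]
    have : ∀ m ∈ FL, pc m = 3 := by decide +kernel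
    exact this m hm
  have h4 : (S k).ncard = 3 := by
    rw [ncard_S]
    exact LB_three 0 k hk
  rw [← h1] at hsub
  rw [Set.eq_of_subset_of_ncard_le hsub (by rw [h3, h4]) (toFinite _)]
  exact hB

theorem FL_ne : FL ≠ [] := by decide +kernel

theorem FL_exch : exchB (fun m => FL.contains m) FL = true := by decide +kernel

theorem FL_three : ∀ m ∈ FL, pc m = 3 := by decide +kernel

/-- the matroid of the facet -/
def MF : Matroid (Fin 9) := matOf (fun m => FL.contains m) FL FL_ne FL_exch
  (fun m h => by simpa using h)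

theorem chkF : chk FL [(511, 3), (0, 0), (15, 2), (496, 1)] = true := by decide +kernel

theorem mem_MF {x : Fin 9 → ℝ} (hb : Box x) (h1 : fM 15 x ≤ 2) (h2 : fM 496 x ≤ 1) :
    x ∈ polytope MF := by
  refine mem_of_chk _ chkF FL_three hb ?_
  intro p hp
  simp only [List.mem_cons, List.not_mem_nil, or_false] at hp
  rcases hp with rfl | rfl | rfl | rfl
  · exact_mod_cast hb.2.le
  · rw [fM_zero]
    simp
  · simpa using h1
  · simpa using h2

theorem fM_pt15 : fM 15 pt = 2 := by
  rw [fM_pt]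
  have e0 : (15 : ℕ).testBit 0 = true := by decide
  have e1 : (15 : ℕ).testBit 1 = true := by decide
  have e2 : (15 : ℕ).testBit 2 = true := by decide
  have e3 : (15 : ℕ).testBit 3 = true := by decide
  have e4 : (15 : ℕ).testBit 4 = false := by decide
  have e5 : (15 : ℕ).testBit 5 = false := by decide
  have e6 : (15 : ℕ).testBit 6 = false := by decide
  have e7 : (15 : ℕ).testBit 7 = false := by decide
  have e8 : (15 : ℕ).testBit 8 = false := by decide
  rw [e0, e1, e2, e3, e4, e5, e6, e7, e8]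
  norm_num

theorem box_pt : Box pt := by
  refine ⟨?_, ?_⟩
  · intro i
    fin_cases i <;> simp [pt] <;> norm_num
  · rw [fM_apply]
    simp only [tb511]
    simp only [Fin.sum_univ_succ, Fin.sum_univ_zero, pt]
    simp [Fin.succ]
    norm_num

theorem fM_pt496 : fM 496 pt = 1 := by
  have h1 := fM_compl box_pt 15
  have h3 : 511 ^^^ 15 = 496 := by decide
  rw [h3, fM_pt15] at h1
  linarith

/-- every face through the generic point of a convex set containing the facet contains the
facet -/
theorem facet_mem {P G : Set (Fin 9 → ℝ)} (hG : IsFace P G) (hP : polytope MF ⊆ P)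
    (hpt : pt ∈ G) : ∀ m ∈ FL, vec (S m) ∈ G := by
  intro m hm
  set w : Fin 9 → ℝ := (10 / 9 : ℝ) • pt - (1 / 9 : ℝ) • vec (S m) with hw
  have hfw : ∀ H, fM H w = 10 / 9 * fM H pt - 1 / 9 * pc (H &&& m) := by
    intro H
    rw [hw, map_sub, map_smul, map_smul, fM_S, smul_eq_mul, smul_eq_mul]
  have h1 : ∀ m ∈ FL, pc (15 &&& m) = 2 ∧ pc (496 &&& m) = 1 ∧ pc (511 &&& m) = 3 := by
    decide +kernel
  obtain ⟨h15, h496, h511⟩ := h1 m hm
  have hbw : Box w := by
    refine ⟨fun i => ?_, ?_⟩
    · have h2 : 1 / 5 ≤ pt i ∧ pt i ≤ 4 / 5 := by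
        fin_cases i <;> simp [pt] <;> norm_num
      have h3 := vec_nonneg (S m) i
      have h4 := vec_le_one (S m) i
      simp only [hw, Pi.sub_apply, Pi.smul_apply, smul_eq_mul]
      constructor <;> linarith [h2.1, h2.2]
    · rw [hfw, h511, box_pt.2]
      norm_num
  have hwF : w ∈ polytope MF := by
    refine mem_MF hbw ?_ ?_
    · rw [hfw, h15, fM_pt15]
      norm_num
    · rw [hfw, h496, fM_pt496]
      norm_num
  have hv : vec (S m) ∈ polytope MF := vec_mem_polytope ⟨m, hm, rfl⟩
  refine hG.2.left_mem_of_mem_openSegment (hP hv) (hP hwF) hpt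
    ⟨1 / 10, 9 / 10, by norm_num, by norm_num, by norm_num, ?_⟩
  funext i
  simp only [hw, Pi.add_apply, Pi.sub_apply, Pi.smul_apply, smul_eq_mul]
  ring

end Pool.Agent.H95MS
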