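import Pool.Agent.H95MS.Edm

set_option autoImplicit false

/-!
# Polytopal complexes from compatible polytopes; finest matroid subdivisions exist
-/

namespace Pool.Agent.H95MS

open Set Filter Topology

variable {n : ℕ}

theorem extreme_sum {P F : Set (Fin n → ℝ)} (hP : Convex ℝ P) (hF : IsExtreme ℝ P F)
    {ι : Type*} [Fintype ι] (z : ι → Fin n → ℝ) (w : ι → ℝ) (hz : ∀ i, z i ∈ P)
    (hw : ∀ i, 0 < w i) (h1 : ∑ i, w i = 1) (hx : ∑ i, w i • z i ∈ F) : ∀ i, z i ∈ F := by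
  classical
  intro i
  have hsplit : ∑ j, w j • z j = w i • z i + ∑ j ∈ Finset.univ.erase i, w j • z j :=
    (Finset.add_sum_erase _ _ (Finset.mem_univ i)).symm
  have hs : w i + ∑ j ∈ Finset.univ.erase i, w j = 1 := by
    rw [Finset.add_sum_erase _ _ (Finset.mem_univ i), h1]
  set s := ∑ j ∈ Finset.univ.erase i, w j with hs'
  rcases (Finset.univ.erase i).eq_empty_or_nonempty with he | hne
  · rw [he, Finset.sum_empty] at hs'
    rw [hsplit, he, Finset.sum_empty, add_zero] at hx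
    have : w i = 1 := by linarith
    rwa [this, one_smul] at hx
  · have hspos : 0 < s := Finset.sum_pos (fun j _ => hw j) hne
    have hy : ∑ j ∈ Finset.univ.erase i, (w j / s) • z j ∈ P := by
      refine hP.sum_mem (fun j _ => (div_pos (hw j) hspos).le) ?_ (fun j _ => hz j)
      rw [← Finset.sum_div]
      exact div_self hspos.ne'
    refine hF.left_mem_of_mem_openSegment (hz i) hy hx ⟨w i, s, hw i, hspos, hs, ?_⟩
    rw [hsplit, Finset.smul_sum]
    congr 1
    refine Finset.sum_congr rfl fun j _ => ?_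
    rw [smul_smul, mul_div_cancel₀ _ hspos.ne']

theorem face_convexHull {S F : Set (Fin n → ℝ)} (hF : IsFace (convexHull ℝ S) F) :
    F = convexHull ℝ (S ∩ F) := by
  refine subset_antisymm ?_ (convexHull_min inter_subset_right hF.1)
  intro x hx
  obtain ⟨ι, _, z, w, hz, -, hw, h1, hxs⟩ :=
    eq_pos_convex_span_of_mem_convexHull (hF.2.subset hx)
  have hz' : ∀ i, z i ∈ S := fun i => hz ⟨i, rfl⟩
  have hzF := extreme_sum (convex_convexHull ℝ S) hF.2 z w
    (fun i => subset_convexHull ℝ S (hz' i)) hw h1 (by rw [hxs]; exact hx)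
  rw [← hxs]
  exact (convex_convexHull ℝ _).sum_mem (fun i _ => (hw i).le) h1
    (fun i _ => subset_convexHull ℝ _ ⟨hz' i, hzF i⟩)

theorem IsFace.refl {P : Set (Fin n → ℝ)} (hP : Convex ℝ P) : IsFace P P :=
  ⟨hP, IsExtreme.refl ℝ P⟩

theorem IsFace.trans {P F G : Set (Fin n → ℝ)} (h1 : IsFace P F) (h2 : IsFace F G) :
    IsFace P G := ⟨h2.1, h1.2.trans h2.2⟩

theorem IsFace.inter {P F G : Set (Fin n → ℝ)} (h1 : IsFace P F) (h2 : IsFace P G) :
    IsFace P (F ∩ G) := ⟨h1.1.inter h2.1, h1.2.inter h2.2⟩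

theorem IsFace.mono {P F G : Set (Fin n → ℝ)} (h1 : IsFace P F) (h2 : G ⊆ P) (h3 : F ⊆ G) :
    IsFace G F := ⟨h1.1, h1.2.mono h2 h3⟩

/-- a linear functional bounded from above by `c` on `P` defines a face -/
theorem isFace_of_le {P : Set (Fin n → ℝ)} (hP : Convex ℝ P) (f : (Fin n → ℝ) →ₗ[ℝ] ℝ) (c : ℝ)
    (h : ∀ x ∈ P, f x ≤ c) : IsFace P {x | x ∈ P ∧ f x = c} := by
  refine ⟨?_, fun x hx => hx.1, ?_⟩
  · intro x hx y hy a b ha hb hab
    refine ⟨hP hx.1 hy.1 ha hb hab, ?_⟩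
    rw [map_add, map_smul, map_smul, hx.2, hy.2, smul_eq_mul, smul_eq_mul, ← add_mul, hab, one_mul]
  · rintro x hx y hy z hz ⟨a, b, ha, hb, hab, rfl⟩
    refine ⟨hx, ?_⟩
    have h1 := hz.2
    rw [map_add, map_smul, map_smul, smul_eq_mul, smul_eq_mul] at h1
    have h2 := h x hx
    have h3 := h y hy
    by_contra hne
    have h4 : f x < c := lt_of_le_of_ne h2 hne
    have h5 : a * f x < a * c := mul_lt_mul_of_pos_left h4 ha
    have h6 : b * f y ≤ b * c := mul_le_mul_of_nonneg_left h3 hb.le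
    have h7 : a * c + b * c = c := by rw [← add_mul, hab, one_mul]
    linarith

theorem finite_faces {S : Set (Fin n → ℝ)} (hS : S.Finite) :
    {F | IsFace (convexHull ℝ S) F}.Finite := by
  refine (hS.powerset.image (fun T => convexHull ℝ T)).subset ?_
  intro F hF
  exact ⟨S ∩ F, inter_subset_left, (face_convexHull hF).symm⟩

/-- The faces of the members of a finite compatible family of polytopes form a complex. -/
theorem complex_of_compatible {ι : Type*} [Finite ι] (P : ι → Set (Fin n → ℝ))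
    (hP : ∀ i, ∃ S : Set (Fin n → ℝ), S.Finite ∧ P i = convexHull ℝ S)
    (h : ∀ i j, IsFace (P i) (P i ∩ P j)) :
    IsPolytopalComplex {F | ∃ i, IsFace (P i) F} := by
  refine ⟨?_, ?_, ?_, ?_⟩
  · have : {F | ∃ i, IsFace (P i) F} = ⋃ i, {F | IsFace (P i) F} := by
      ext F
      simp
    rw [this]
    refine Set.finite_iUnion fun i => ?_
    obtain ⟨S, hS, hPS⟩ := hP i
    rw [hPS]
    exact finite_faces hS
  · rintro Q ⟨i, hQ⟩
    obtain ⟨S, hS, hPS⟩ := hP i
    rw [hPS] at hQ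
    exact ⟨S ∩ Q, hS.subset inter_subset_left, face_convexHull hQ⟩
  · rintro Q ⟨i, hQ⟩ F hF
    exact ⟨i, hQ.trans hF⟩
  · have key : ∀ i j F G, IsFace (P i) F → IsFace (P j) G → IsFace F (F ∩ G) := by
      intro i j F G hF hG
      -- the common face `W` of `P i` and `P j`
      have hW1 := h i j
      have hW2 := h j i
      rw [inter_comm] at hW2
      have h1 : IsFace (P j) (G ∩ (P i ∩ P j)) := hG.inter hW2
      have h2 : IsFace (P i ∩ P j) (G ∩ (P i ∩ P j)) := h1.mono inter_subset_right inter_subset_right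
      have h3 : IsFace (P i) (G ∩ (P i ∩ P j)) := hW1.trans h2
      have h4 : IsFace (P i) (F ∩ (G ∩ (P i ∩ P j))) := hF.inter h3
      have h5 : F ∩ (G ∩ (P i ∩ P j)) = F ∩ G := by
        ext x
        constructor
        · rintro ⟨hx, hy, -⟩
          exact ⟨hx, hy⟩
        · rintro ⟨hx, hy⟩
          exact ⟨hx, hy, hF.2.subset hx, hG.2.subset hy⟩
      rw [h5] at h4
      exact h4.mono hF.2.subset inter_subset_left
    rintro Q ⟨i, hQ⟩ R ⟨j, hR⟩
    refine ⟨key i j Q R hQ hR, ?_⟩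
    rw [inter_comm]
    exact key j i R Q hR hQ

theorem finite_bases (M : Matroid (Fin n)) :
    {x : Fin n → ℝ | ∃ B, M.IsBase B ∧ x = vec B}.Finite := by
  refine ((Set.toFinite (Set.univ : Set (Set (Fin n)))).image vec).subset ?_
  rintro _ ⟨B, -, rfl⟩
  exact ⟨B, mem_univ _, rfl⟩

/-- A compatible family of matroid polytopes with union `P` gives a matroid subdivision. -/
theorem subdivision_of {ι : Type*} [Finite ι] (M : ι → Matroid (Fin n))
    (hE : ∀ i, (M i).E = univ) (P : Set (Fin n → ℝ)) (hU : (⋃ i, polytope (M i)) = P)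
    (hcube : ∀ x ∈ P, ∀ i, 0 ≤ x i ∧ x i ≤ 1)
    (h : ∀ i j, IsFace (polytope (M i)) (polytope (M i) ∩ polytope (M j))) :
    IsMatroidSubdivision P {F | ∃ i, IsFace (polytope (M i)) F} := by
  have hC := complex_of_compatible (fun i => polytope (M i))
    (fun i => ⟨_, finite_bases (M i), rfl⟩) h
  refine ⟨hC, ?_, ?_, ?_⟩
  · rw [← hU]
    ext x
    simp only [mem_sUnion, mem_iUnion, mem_setOf_eq]
    constructor
    · rintro ⟨F, ⟨i, hF⟩, hx⟩
      exact ⟨i, hF.2.subset hx⟩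
    · rintro ⟨i, hx⟩
      exact ⟨_, ⟨i, IsFace.refl (convex_polytope _)⟩, hx⟩
  · rintro v ⟨i, hv⟩
    have h1 := face_convexHull hv
    have h2 : ({x | ∃ B, (M i).IsBase B ∧ x = vec B} ∩ {v}).Nonempty := by
      by_contra hne
      rw [not_nonempty_iff_eq_empty] at hne
      rw [hne, convexHull_empty] at h1
      exact absurd h1 (singleton_ne_empty v)
    obtain ⟨x, ⟨B, hB, hx⟩, hxv⟩ := h2
    have hxv' : x = v := hxv
    subst hxv'
    have hxP : x ∈ P := by
      rw [← hU]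
      exact mem_iUnion.mpr ⟨i, hv.2.subset rfl⟩
    refine ⟨convex_singleton x, ?_⟩
    rw [isExtreme_singleton]
    rw [hx] at hxP ⊢
    exact vec_extreme hcube hxP
  · rintro Q ⟨⟨i, hQ⟩, hmax⟩
    refine ⟨M i, hE i, ?_⟩
    exact (hmax _ ⟨i, IsFace.refl (convex_polytope _)⟩ hQ.2.subset).symm

/-! ### Finest refinements -/

theorem refines_sub {C C' : Set (Set (Fin n → ℝ))} (hC : IsPolytopalComplex C)
    (hC' : IsPolytopalComplex C') (h1 : Refines C C') (h2 : Refines C' C) : C ⊆ C' := by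
  intro Q hQ
  obtain ⟨R, hR, hQR⟩ := h1 Q hQ
  obtain ⟨T, hT, hRT⟩ := h2 R hR
  have h3 := (hC.inter Q hQ T hT).2
  rw [inter_eq_self_of_subset_left (hQR.trans hRT)] at h3
  exact hC'.face R hR Q (h3.mono hRT hQR)

theorem refines_antisymm {C C' : Set (Set (Fin n → ℝ))} (hC : IsPolytopalComplex C)
    (hC' : IsPolytopalComplex C') (h1 : Refines C C') (h2 : Refines C' C) : C = C' :=
  subset_antisymm (refines_sub hC hC' h1 h2) (refines_sub hC' hC h2 h1)

theorem Refines.refl (C : Set (Set (Fin n → ℝ))) : Refines C C := fun Q hQ => ⟨Q, hQ, subset_rfl⟩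

theorem Refines.trans {A B C : Set (Set (Fin n → ℝ))} (h1 : Refines A B) (h2 : Refines B C) :
    Refines A C := by
  intro Q hQ
  obtain ⟨R, hR, hQR⟩ := h1 Q hQ
  obtain ⟨T, hT, hRT⟩ := h2 R hR
  exact ⟨T, hT, hQR.trans hRT⟩

theorem finite_subdivisions (P : Set (Fin n → ℝ)) :
    {C : Set (Set (Fin n → ℝ)) | IsMatroidSubdivision P C}.Finite := by
  have h1 : (Set.range fun 𝓑 : Set (Set (Fin n)) => convexHull ℝ (vec '' 𝓑)).Finite :=
    Set.finite_range _
  refine h1.powerset.subset ?_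
  intro C hC Q hQ
  obtain ⟨R, hR, hQR⟩ := exists_cell_of_mem hC.isComplex hQ
  obtain ⟨N, -, hN⟩ := hC.cells R hR
  have h2 := (hC.isComplex.inter Q hQ R hR.1).2
  rw [inter_eq_self_of_subset_left hQR, hN] at h2
  have h3 := face_convexHull h2
  refine ⟨{B | N.IsBase B ∧ vec B ∈ Q}, ?_⟩
  show convexHull ℝ (vec '' {B | N.IsBase B ∧ vec B ∈ Q}) = Q
  conv_rhs => rw [h3]
  congr 1
  ext x
  constructor
  · rintro ⟨B, ⟨hB, hBQ⟩, rfl⟩
    exact ⟨⟨B, hB, rfl⟩, hBQ⟩
  · rintro ⟨⟨B, hB, rfl⟩, hBQ⟩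
    exact ⟨B, ⟨hB, hBQ⟩, rfl⟩

/-- every matroid subdivision has a finest refinement -/
theorem exists_finest {P : Set (Fin n → ℝ)} {C₀ : Set (Set (Fin n → ℝ))}
    (h₀ : IsMatroidSubdivision P C₀) : ∃ C, IsFinest P C ∧ Refines C C₀ := by
  classical
  set T := {C : Set (Set (Fin n → ℝ)) | IsMatroidSubdivision P C ∧ Refines C C₀} with hT
  have hfin : T.Finite := (finite_subdivisions P).subset fun C hC => hC.1
  haveI : Finite T := hfin
  let r : T → T → Prop := fun a b => Refines a.1 b.1 ∧ a ≠ b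
  haveI hr1 : IsTrans T r := ⟨by
    rintro a b c ⟨hab, hab'⟩ ⟨hbc, hbc'⟩
    refine ⟨hab.trans hbc, ?_⟩
    rintro rfl
    exact hab' (Subtype.ext (refines_antisymm a.2.1.isComplex b.2.1.isComplex hab hbc))⟩
  haveI hr2 : Std.Irrefl r := ⟨fun a ha => ha.2 rfl⟩
  have hwf : WellFounded r := Finite.wellFounded_of_trans_of_irrefl r
  obtain ⟨m, -, hm⟩ := hwf.has_min Set.univ ⟨⟨C₀, h₀, Refines.refl C₀⟩, mem_univ _⟩
  refine ⟨m.1, ⟨m.2.1, ?_⟩, m.2.2⟩
  intro C' hC' href
  by_contra hne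
  refine hm ⟨C', hC', href.trans m.2.2⟩ (mem_univ _) ⟨href, ?_⟩
  intro heq
  exact hne (congrArg Subtype.val heq)

end Pool.Agent.H95MS
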