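import Mathlib

set_option autoImplicit false

/-!
# Matroid polytopes, matroid subdivisions, finest matroid subdivisions
-/

namespace Pool.Agent.H95MS

open Set

variable {n : ℕ}

/-- The 0/1-vector of a subset of `{0, ..., n - 1}`. -/
noncomputable def vec (B : Set (Fin n)) : Fin n → ℝ := B.indicator 1

/-- The matroid polytope: the convex hull of the 0/1-vectors of the bases. -/
noncomputable def polytope (M : Matroid (Fin n)) : Set (Fin n → ℝ) :=
  convexHull ℝ {x | ∃ B, M.IsBase B ∧ x = vec B}

/-- The hypersimplex: the convex hull of the 0/1-vectors of the `k`-subsets. -/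
noncomputable def hypersimplex (k n : ℕ) : Set (Fin n → ℝ) :=
  convexHull ℝ {x | ∃ B : Set (Fin n), B.ncard = k ∧ x = vec B}

/-- `F` is a face of the convex set `P`: a convex subset such that every segment in `P` with an
inner point in `F` lies in `F`. The empty set and `P` itself are faces of `P`. -/
def IsFace (P F : Set (Fin n → ℝ)) : Prop := Convex ℝ F ∧ IsExtreme ℝ P F

/-- A polytopal complex: a finite family of polytopes which contains the faces of its members and
such that any two members meet in a common face (possibly empty). -/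
structure IsPolytopalComplex (C : Set (Set (Fin n → ℝ))) : Prop where
  finite : C.Finite
  polytope : ∀ Q ∈ C, ∃ S : Set (Fin n → ℝ), S.Finite ∧ Q = convexHull ℝ S
  face : ∀ Q ∈ C, ∀ F, IsFace Q F → F ∈ C
  inter : ∀ Q ∈ C, ∀ R ∈ C, IsFace Q (Q ∩ R) ∧ IsFace R (Q ∩ R)

/-- A maximal member of the complex. -/
def IsCell (C : Set (Set (Fin n → ℝ))) (Q : Set (Fin n → ℝ)) : Prop :=
  Q ∈ C ∧ ∀ R ∈ C, Q ⊆ R → R = Q

/-- `C` is a matroid subdivision of `P`: a polytopal complex whose union is `P`, all of whose
vertices are vertices of `P`, and all of whose maximal cells are matroid polytopes of matroids on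
the whole ground set. -/
structure IsMatroidSubdivision (P : Set (Fin n → ℝ)) (C : Set (Set (Fin n → ℝ))) : Prop where
  isComplex : IsPolytopalComplex C
  union : ⋃₀ C = P
  vertices : ∀ v : Fin n → ℝ, {v} ∈ C → IsFace P {v}
  cells : ∀ Q, IsCell C Q → ∃ N : Matroid (Fin n), N.E = univ ∧ Q = polytope N

/-- `C'` refines `C`: every member of `C'` is contained in a member of `C`. -/
def Refines (C' C : Set (Set (Fin n → ℝ))) : Prop := ∀ Q ∈ C', ∃ R ∈ C, Q ⊆ R

/-- `C` is a finest matroid subdivision of `P`: no matroid subdivision of `P` other than `C`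
refines `C`. -/
def IsFinest (P : Set (Fin n → ℝ)) (C : Set (Set (Fin n → ℝ))) : Prop :=
  IsMatroidSubdivision P C ∧ ∀ C', IsMatroidSubdivision P C' → Refines C' C → C' = C

/-- The matroid `N` is indecomposable: the only matroid subdivision of its polytope is the
trivial one, consisting of the polytope and its faces. -/
def Indecomposable (N : Matroid (Fin n)) : Prop :=
  ∀ C, IsMatroidSubdivision (polytope N) C → C = {F | IsFace (polytope N) F}

end Pool.Agent.H95MS
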