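import Pool.Agent.H95MS.Basic

set_option autoImplicit false

/-!
# The inequalities of a matroid polytope
-/

namespace Pool.Agent.H95MS

open Set Filter Topology

variable {n : ℕ}

theorem abel_aux (W d : ℕ → ℝ) (m : ℕ) (hW : ∀ j, j + 1 < m + 1 → W (j + 1) ≤ W j)
    (ha : ∀ k, k ≤ m + 1 → ∑ j ∈ Finset.range k, d j ≤ 0) :
    ∑ j ∈ Finset.range (m + 1), W j * d j ≤ W m * ∑ j ∈ Finset.range (m + 1), d j := by
  induction m with
  | zero => simp
  | succ m ih =>
    have h1 := ih (fun j hj => hW j (by omega)) (fun k hk => ha k (by omega))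
    rw [Finset.sum_range_succ, Finset.sum_range_succ (f := d)]
    have h2 := ha (m + 1) (by omega)
    have h3 := hW m (by omega)
    nlinarith

theorem abel (W d : ℕ → ℝ) (m : ℕ) (hW : ∀ j, j + 1 < m → W (j + 1) ≤ W j)
    (ha : ∀ k, k ≤ m → ∑ j ∈ Finset.range k, d j ≤ 0) (hm : ∑ j ∈ Finset.range m, d j = 0) :
    ∑ j ∈ Finset.range m, W j * d j ≤ 0 := by
  rcases m with _ | m
  · simp
  · have := abel_aux W d m hW ha
    rw [hm, mul_zero] at this
    exact this

/-- a base which meets all members of a chain in as many elements as possible -/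
theorem exists_greedy (M : Matroid (Fin n)) (hE : M.E = univ) (X : ℕ → Set (Fin n))
    (hX : ∀ k, X k ⊆ X (k + 1)) : ∀ m, ∃ B, M.IsBase B ∧ ∀ k, k ≤ m → ∀ B', M.IsBase B' →
      (B' ∩ X k).ncard ≤ (B ∩ X k).ncard := by
  have hsub : ∀ Y : Set (Fin n), Y ⊆ M.E := fun Y => hE ▸ subset_univ Y
  -- a chain of bases of the sets
  have h1 : ∀ m, ∃ I, M.IsBasis I (X m) ∧ ∀ k, k ≤ m → ∀ B', M.IsBase B' →
      (B' ∩ X k).ncard ≤ (I ∩ X k).ncard := by
    intro m
    have key : ∀ (k : ℕ) (I J : Set (Fin n)), M.IsBasis I (X k) → I ⊆ J → ∀ B', M.IsBase B' →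
        (B' ∩ X k).ncard ≤ (J ∩ X k).ncard := by
      intro k I J hI hIJ B' hB'
      have h2 : (B' ∩ X k).encard ≤ I.encard := by
        rw [hI.encard_eq_eRk]
        exact (hB'.indep.subset inter_subset_left).encard_le_eRk_of_subset inter_subset_right
      have h3 : I.encard ≤ (J ∩ X k).encard :=
        Set.encard_le_encard (subset_inter hIJ hI.subset)
      have h4 := h2.trans h3
      rw [(toFinite _).encard_eq_coe_toFinset_card, (toFinite _).encard_eq_coe_toFinset_card] at h4
      rw [Set.ncard_eq_toFinset_card _ (toFinite _), Set.ncard_eq_toFinset_card _ (toFinite _)]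
      exact_mod_cast h4
    induction m with
    | zero =>
      obtain ⟨I, hI⟩ := M.exists_isBasis (X 0) (hsub _)
      refine ⟨I, hI, fun k hk B' hB' => ?_⟩
      obtain rfl : k = 0 := by omega
      exact key 0 I I hI subset_rfl B' hB'
    | succ m ih =>
      obtain ⟨I, hI, hI'⟩ := ih
      obtain ⟨J, hJ, hIJ⟩ := hI.indep.subset_isBasis_of_subset (hI.subset.trans (hX m)) (hsub _)
      refine ⟨J, hJ, fun k hk B' hB' => ?_⟩
      rcases Nat.lt_or_ge k (m + 1) with hk' | hk'
      · refine (hI' k (by omega) B' hB').trans (Set.ncard_le_ncard ?_ (toFinite _))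
        exact inter_subset_inter_left _ hIJ
      · obtain rfl : k = m + 1 := by omega
        exact key _ J J hJ subset_rfl B' hB'
  intro m
  obtain ⟨I, hI, hI'⟩ := h1 m
  obtain ⟨B, hB, hIB⟩ := hI.indep.exists_isBase_superset
  refine ⟨B, hB, fun k hk B' hB' => (hI' k hk B' hB').trans ?_⟩
  exact Set.ncard_le_ncard (inter_subset_inter_left _ hIB) (toFinite _)

theorem polytope_isClosed (M : Matroid (Fin n)) : IsClosed (polytope M) := by
  unfold polytope
  refine Set.Finite.isClosed_convexHull ℝ ?_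
  refine ((Set.toFinite (Set.univ : Set (Set (Fin n)))).image vec).subset ?_
  rintro _ ⟨B, -, rfl⟩
  exact ⟨B, mem_univ _, rfl⟩

theorem sum_vec (A : Finset (Fin n)) (B : Set (Fin n)) :
    ∑ i ∈ A, vec B i = ((B ∩ (A : Set (Fin n))).ncard : ℝ) := by
  classical
  unfold vec
  have h1 : (B ∩ (A : Set (Fin n))) = ((A.filter (· ∈ B) : Finset (Fin n)) : Set (Fin n)) := by
    ext i
    simp [and_comm]
  rw [h1, Set.ncard_coe_finset, Finset.card_filter]
  push_cast
  refine Finset.sum_congr rfl fun i _ => ?_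
  simp [Set.indicator_apply]

/-- the inequalities of the rank function describe the matroid polytope -/
theorem mem_polytope_of_rank (M : Matroid (Fin n)) (hE : M.E = univ) (x : Fin n → ℝ)
    (h : ∀ A : Finset (Fin n), ∃ B, M.IsBase B ∧
      ∑ i ∈ A, x i ≤ ((B ∩ (A : Set (Fin n))).ncard : ℝ))
    (hs : ∀ B, M.IsBase B → ∑ i, x i = (B.ncard : ℝ)) : x ∈ polytope M := by
  by_contra hx
  obtain ⟨f, u, hf1, hf2⟩ :=
    geometric_hahn_banach_closed_point (convex_polytope M) (polytope_isClosed M) hx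
  set w : Fin n → ℝ := fun i => f (Pi.single i 1) with hw
  have hfw : ∀ y : Fin n → ℝ, f y = ∑ i, w i * y i := by
    intro y
    have h1 : y = ∑ i, y i • (Pi.single i (1 : ℝ) : Fin n → ℝ) := by
      funext j
      simp [Finset.sum_apply, Pi.single_apply]
    conv_lhs => rw [h1]
    rw [map_sum]
    refine Finset.sum_congr rfl fun i _ => ?_
    rw [map_smul, smul_eq_mul, mul_comm]
  set σ : Equiv.Perm (Fin n) := Tuple.sort (fun i => - w i) with hσ
  have hmono : ∀ i j : Fin n, i ≤ j → w (σ j) ≤ w (σ i) := by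
    intro i j hij
    have := Tuple.monotone_sort (fun i => - w i) hij
    simp only [Function.comp_apply] at this
    linarith
  set X : ℕ → Finset (Fin n) := fun k => (Finset.univ.filter (fun j : Fin n => j.1 < k)).map
    σ.toEmbedding with hX
  have hXsub : ∀ k, ((X k : Finset (Fin n)) : Set (Fin n)) ⊆ X (k + 1) := by
    intro k
    rw [Finset.coe_subset]
    refine Finset.map_subset_map.mpr ?_
    intro j hj
    rw [Finset.mem_filter] at hj ⊢
    exact ⟨hj.1, by omega⟩
  obtain ⟨B, hB, hgr⟩ := exists_greedy M hE (fun k => (X k : Set (Fin n))) hXsub n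
  have hXn : X n = Finset.univ := by
    rw [hX]
    simp only [Fin.is_lt, Finset.filter_true]
    exact Finset.map_univ_equiv σ
  -- the sums over the chain
  have hsum : ∀ (g : Fin n → ℝ) (k : ℕ), k ≤ n → ∑ i ∈ X k, g i =
      ∑ j ∈ Finset.range k, (if hj : j < n then g (σ ⟨j, hj⟩) else 0) := by
    intro g k hk
    rw [hX, Finset.sum_map]
    refine Finset.sum_bij (fun (j : Fin n) _ => j.1) ?_ ?_ ?_ ?_
    · intro j hj
      rw [Finset.mem_filter] at hj
      exact Finset.mem_range.mpr hj.2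
    · intro a _ b _ hab
      exact Fin.ext hab
    · intro b hb
      rw [Finset.mem_range] at hb
      exact ⟨⟨b, by omega⟩, by simp [hb], rfl⟩
    · intro a _
      simp
  set d : ℕ → ℝ := fun j => if hj : j < n then x (σ ⟨j, hj⟩) - vec B (σ ⟨j, hj⟩) else 0 with hd
  have hdk : ∀ k, k ≤ n → ∑ j ∈ Finset.range k, d j = ∑ i ∈ X k, x i - ∑ i ∈ X k, vec B i := by
    intro k hk
    rw [← Finset.sum_sub_distrib, hsum (fun i => x i - vec B i) k hk]
  have ha : ∀ k, k ≤ n → ∑ j ∈ Finset.range k, d j ≤ 0 := by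
    intro k hk
    rw [hdk k hk, sum_vec]
    obtain ⟨B', hB', hle⟩ := h (X k)
    have := hgr k hk B' hB'
    have h2 : ((B' ∩ (X k : Set (Fin n))).ncard : ℝ) ≤ ((B ∩ (X k : Set (Fin n))).ncard : ℝ) := by
      exact_mod_cast this
    linarith
  have hn : ∑ j ∈ Finset.range n, d j = 0 := by
    rw [hdk n le_rfl, hXn, sum_vec, hs B hB]
    simp
  set W : ℕ → ℝ := fun j => if hj : j < n then w (σ ⟨j, hj⟩) else 0 with hW
  have hWm : ∀ j, j + 1 < n → W (j + 1) ≤ W j := by
    intro j hj
    have hj' : j < n := by omega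
    simp only [hW, hj, hj', dite_true]
    exact hmono _ _ (by simp [Fin.le_def])
  have hfin := abel W d n hWm ha hn
  have hfx : f x - f (vec B) = ∑ j ∈ Finset.range n, W j * d j := by
    rw [hfw, hfw, ← Finset.sum_sub_distrib]
    have h1 := hsum (fun i => w i * x i - w i * vec B i) n le_rfl
    rw [hXn] at h1
    rw [h1]
    refine Finset.sum_congr rfl fun j hj => ?_
    rw [Finset.mem_range] at hj
    simp only [hW, hd, hj, dite_true]
    ring
  have h5 := hf1 (vec B) (vec_mem_polytope hB)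
  linarith

end Pool.Agent.H95MS
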