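import Pool.Agent.H95MS.Comb3

set_option autoImplicit false

/-!
# A finest matroid subdivision with a decomposable cell
-/

namespace Pool.Agent.H95MS

open Set

theorem hyp_convex : Convex ℝ (hypersimplex 3 9) := convex_convexHull ℝ _

theorem vec_mem_hyp (m : ℕ) (hm : pc m = 3) : vec (S m) ∈ hypersimplex 3 9 :=
  subset_convexHull ℝ _ ⟨S m, by rw [ncard_S, hm], rfl⟩

theorem fM_seg (H : ℕ) (v : Fin 9 → ℝ) (t : ℝ) :
    fM H (pt + t • (v - pt)) = fM H pt + t * (fM H v - fM H pt) := by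
  rw [map_add, map_smul, map_sub, smul_eq_mul]

theorem fM_line (H : ℕ) (x : Fin 9 → ℝ) : fM H x = ((H.testBit 0).toNat : ℝ) * x 0 +
    ((H.testBit 1).toNat : ℝ) * x 1 + ((H.testBit 2).toNat : ℝ) * x 2 +
    ((H.testBit 3).toNat : ℝ) * x 3 + ((H.testBit 4).toNat : ℝ) * x 4 +
    ((H.testBit 5).toNat : ℝ) * x 5 + ((H.testBit 6).toNat : ℝ) * x 6 +
    ((H.testBit 7).toNat : ℝ) * x 7 + ((H.testBit 8).toNat : ℝ) * x 8 := by
  rw [fM_apply]
  simp only [Fin.sum_univ_succ, Fin.sum_univ_zero]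
  simp [Fin.succ]
  ring

/-- the generic point is strictly inside for the lines with three elements -/
theorem pt_line : ∀ j : Fin 9, j ≠ 0 → fM (LN j) pt < 2 := by
  have hb := box_pt
  have h1 : ∀ j : Fin 9, j ≠ 0 → ∃ a x y : Fin 9, a.1 < 4 ∧ 4 ≤ x.1 ∧ 4 ≤ y.1 ∧ a ≠ x ∧ a ≠ y ∧
      x ≠ y ∧ ∀ i : Fin 9, (LN j).testBit i = true ↔ i = a ∨ i = x ∨ i = y := by decide +kernel
  intro j hj
  obtain ⟨a, x, y, ha, hx, hy, hax, hay, hxy, hL⟩ := h1 j hj
  have h2 : fM (LN j) pt = pt a + pt x + pt y := by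
    rw [fM_apply]
    have h3 : ∀ i : Fin 9, (((LN j).testBit i).toNat : ℝ) * pt i =
        if i ∈ ({a, x, y} : Finset (Fin 9)) then pt i else 0 := by
      intro i
      by_cases hi : (LN j).testBit i = true
      · rw [hi, if_pos]
        · simp
        · have := (hL i).mp hi
          simpa using this
      · have hi' : (LN j).testBit i = false := by simpa using hi
        rw [hi', if_neg]
        · simp
        · intro hmem
          exact hi ((hL i).mpr (by simpa using hmem))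
    rw [Finset.sum_congr rfl fun i _ => h3 i, ← Finset.sum_filter]
    have h4 : Finset.univ.filter (fun i => i ∈ ({a, x, y} : Finset (Fin 9))) = {a, x, y} := by
      ext i
      simp
    rw [h4, Finset.sum_insert, Finset.sum_insert, Finset.sum_singleton, add_assoc]
    · simpa using hxy
    · simp [hax, hay]
  have h5 : ∀ i : Fin 9, 4 ≤ i.1 → pt i = 1 / 5 := by
    intro i hi
    fin_cases i <;> simp [pt] at hi ⊢
  have h6 : ∀ i : Fin 9, pt i ≤ 4 / 5 := by
    intro i
    fin_cases i <;> simp [pt] <;> norm_num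
  rw [h2, h5 x hx, h5 y hy]
  linarith [h6 a]

theorem pt_cell0 : pt ∈ polytope (MB 0) := by
  refine mem_cell0.mpr ⟨box_pt, fun j => ?_⟩
  by_cases hj : j = 0
  · subst hj
    exact fM_pt15.le
  · exact (pt_line j hj).le

theorem quad1 : ∀ k l : Fin 9, k.1 < 4 → l.1 < 4 → k ≠ l →
    ∃ m ∈ FL, m.testBit k = true ∧ m.testBit l = true := by decide +kernel

theorem quad2 : ∀ i j : Fin 4, i ≠ j → ∃ k l : Fin 9, k.1 < 4 ∧ l.1 < 4 ∧ k ≠ l ∧
    ∀ u : Fin 9, (15 - 2 ^ (i : ℕ)).testBit u = (u.1 == j.1 || (u == k || u == l)) ∧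
      (15 - 2 ^ (j : ℕ)).testBit u = (u.1 == i.1 || (u == k || u == l)) ∧
      (u.1 < 4 → (u.1 == i.1 || (u.1 == j.1 || (u == k || u == l))) = true) := by decide +kernel

theorem quad (i j : Fin 4) (hij : i ≠ j) : ∃ k l : Fin 9, ∃ m ∈ FL, m.testBit k = true ∧
    m.testBit l = true ∧ (∀ u : Fin 9, (15 - 2 ^ (i : ℕ)).testBit u = true ↔
      u.1 = j.1 ∨ u = k ∨ u = l) ∧ (∀ u : Fin 9, (15 - 2 ^ (j : ℕ)).testBit u = true ↔
      u.1 = i.1 ∨ u = k ∨ u = l) ∧ (∀ u : Fin 9, u.1 < 4 →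
      u.1 = i.1 ∨ u.1 = j.1 ∨ u = k ∨ u = l) := by
  obtain ⟨k, l, hk, hl, hkl, h⟩ := quad2 i j hij
  obtain ⟨m, hm, hmk, hml⟩ := quad1 k l hk hl hkl
  refine ⟨k, l, m, hm, hmk, hml, fun u => ?_, fun u => ?_, fun u hu => ?_⟩
  · rw [(h u).1]
    simp
  · rw [(h u).2.1]
    simp
  · simpa using (h u).2.2 hu

theorem main : ∃ C : Set (Set (Fin 9 → ℝ)), IsFinest (hypersimplex 3 9) C ∧
    ∃ N : Matroid (Fin 9), N.E = univ ∧ IsCell C (polytope N) ∧ ¬ Indecomposable N := by
  obtain ⟨C, hC, href⟩ := exists_finest sub0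
  refine ⟨C, hC, ?_⟩
  have hpth : pt ∈ hypersimplex 3 9 := cell_sub 0 pt_cell0
  -- members of `C` are contained in cells of the first subdivision
  have hin : ∀ Q ∈ C, ∃ i, Q ⊆ polytope (MB i) := by
    intro Q hQ
    obtain ⟨F, ⟨i, hF⟩, hQF⟩ := href Q hQ
    exact ⟨i, hQF.trans hF.2.subset⟩
  -- the cell on the inner side
  obtain ⟨R, hR, hptR, t, ht0, ht1, htR⟩ := exists_cell_near hC.1.isComplex hC.1.union hyp_convex
    hpth (vec_mem_hyp 145 (by decide))
  obtain ⟨N, hNE, rfl⟩ := hC.1.cells R hR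
  have hN0 : polytope N ⊆ polytope (MB 0) := by
    obtain ⟨i, hi⟩ := hin _ hR.1
    induction i using Fin.cases with
    | zero => exact hi
    | succ j =>
      exfalso
      by_cases hj : j = 0
      · subst hj
        have h1 := ((mem_cellj 0).mp (hi htR)).2
        have h2 : fM (LN 0) (pt + t • (vec (S 145) - pt)) = 2 - t := by
          have e : LN 0 = 15 := rfl
          have e2 : pc (15 &&& 145) = 1 := by decide
          rw [e, fM_seg, fM_pt15, fM_S, e2]
          push_cast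
          ring
        rw [h2] at h1
        linarith
      · have h1 := ((mem_cellj j).mp (hi hptR)).2
        have h2 := pt_line j hj
        linarith
  have hInner : Inner N := by
    refine ⟨hNE, fun B hB => ?_, hptR, ⟨_, htR, ?_⟩⟩
    · exact isBase_of_subset hN0 hB
    · have e2 : pc (15 &&& 145) = 1 := by decide
      rw [fM_seg, fM_pt15, fM_S, e2]
      push_cast
      linarith
  have hfac := hInner.facet
  have hMFN : polytope MF ⊆ polytope N := by
    refine polytope_mono ?_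
    rintro _ ⟨m, hm, rfl⟩
    exact hfac m hm
  -- the cell on the outer side
  obtain ⟨Q, hQ, hptQ, s, hs0, hs1, hsQ⟩ := exists_cell_near hC.1.isComplex hC.1.union hyp_convex
    hpth (vec_mem_hyp 7 (by decide))
  obtain ⟨N', hNE', rfl⟩ := hC.1.cells Q hQ
  refine ⟨N', hNE', hQ, ?_⟩
  have hface := (hC.1.isComplex.inter _ hQ.1 _ hR.1).2
  have hmem := facet_mem hface hMFN ⟨hptQ, hptR⟩
  have hb : ∀ m ∈ FL, N'.IsBase (S m) := fun m hm => isBase_of_vec_mem (hmem m hm).1
  set y := pt + s • (vec (S 7) - pt) with hy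
  have hy15 : 2 < fM 15 y := by
    have e2 : pc (15 &&& 7) = 3 := by decide
    rw [hy, fM_seg, fM_pt15, fM_S, e2]
    push_cast
    linarith
  have hN1 : polytope N' ⊆ polytope (MB 1) := by
    obtain ⟨i, hi⟩ := hin _ hQ.1
    induction i using Fin.cases with
    | zero =>
      exfalso
      have h1 := (mem_cell0.mp (hi hsQ)).2 0
      have e : LN 0 = 15 := rfl
      rw [e] at h1
      linarith
    | succ j =>
      by_cases hj : j = 0
      · subst hj
        exact hi
      · exfalso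
        have h1 : ∀ j : Fin 9, j ≠ 0 → ∃ m ∈ FL, pc (LN j &&& m) ≤ 1 := by decide +kernel
        obtain ⟨m, hm, hm1⟩ := h1 j hj
        have h2 := ((mem_cellj j).mp (hi (hmem m hm).1)).2
        rw [fM_S] at h2
        have h3 : (pc (LN j &&& m) : ℝ) ≤ 1 := by exact_mod_cast hm1
        linarith
  have hM1 : ∀ B, N'.IsBase B → ∃ m ∈ LB 1, B = S m := fun B hB => isBase_of_subset hN1 hB
  -- there is a base in the line
  obtain ⟨m₀, hm₀, hm₀B, hm₀3⟩ : ∃ m ∈ LB 1, N'.IsBase (S m) ∧ 2 < pc (15 &&& m) := by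
    by_contra hcon
    push Not at hcon
    have h1 := le_of_mem (fM 15) 2 (M := N') (fun B hB => by
      obtain ⟨m, hm, rfl⟩ := hM1 B hB
      rw [fM_S]
      exact_mod_cast hcon m hm hB) hsQ
    linarith
  have hsub : ∀ X : Set (Fin 9), X ⊆ N'.E := fun X => hNE' ▸ subset_univ X
  -- at most one triple of the line is dependent
  have htwo : ∀ i j : Fin 4, i ≠ j → ¬ N'.IsBase (S (15 - 2 ^ (i : ℕ))) →
      N'.IsBase (S (15 - 2 ^ (j : ℕ))) := by
    intro i j hij hi
    by_contra hj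
    obtain ⟨k, l, m, hm, hmk, hml, hSi, hSj, hall⟩ := quad i j hij
    have hkl : N'.Indep {k, l} := by
      refine (hb m hm).indep.subset ?_
      rintro u (rfl | rfl)
      · exact hmk
      · exact hml
    have hcl : ∀ (i j : Fin 4), (∀ u : Fin 9, (15 - 2 ^ (i : ℕ)).testBit u = true ↔
          u.1 = j.1 ∨ u = k ∨ u = l) → ¬ N'.IsBase (S (15 - 2 ^ (i : ℕ))) →
        (⟨j.1, by omega⟩ : Fin 9) ∈ N'.closure {k, l} := by
      intro i j hS hnb
      rw [hkl.mem_closure_iff]
      left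
      refine ⟨fun hind => hnb ?_, hsub _⟩
      have e1 : S (15 - 2 ^ (i : ℕ)) = insert (⟨j.1, by omega⟩ : Fin 9) {k, l} := by
        ext u
        rw [mem_S, hS]
        simp [Fin.ext_iff]
      obtain ⟨B, hB, hBs⟩ := hind.exists_isBase_superset
      obtain ⟨n, hn, rfl⟩ := hM1 B hB
      rw [← e1] at hBs
      have h3 : (S (15 - 2 ^ (i : ℕ))).ncard = 3 := by
        rw [ncard_S]
        have : ∀ i : Fin 4, pc (15 - 2 ^ (i : ℕ)) = 3 := by decide
        exact this i
      have h4 : (S n).ncard = 3 := by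
        rw [ncard_S]
        exact LB_three 1 n hn
      rw [Set.eq_of_subset_of_ncard_le hBs (by rw [h3, h4]) (toFinite _)]
      exact hB
    have hci := hcl i j hSi hi
    have hcj := hcl j i hSj hj
    have h5 : ∀ m ∈ LB 1, 2 < pc (15 &&& m) → ∀ u : Fin 9, m.testBit u = true → u.1 < 4 := by
      decide +kernel
    have h6 : S m₀ ⊆ N'.closure {k, l} := by
      intro u hu
      have h7 := h5 m₀ hm₀ hm₀3 u hu
      rcases hall u h7 with e | e | e | e
      · have : u = ⟨i.1, by omega⟩ := Fin.ext e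
        rw [this]
        exact hcj
      · have : u = ⟨j.1, by omega⟩ := Fin.ext e
        rw [this]
        exact hci
      · rw [e]
        exact N'.mem_closure_of_mem (by simp) (hsub _)
      · rw [e]
        exact N'.mem_closure_of_mem (by simp) (hsub _)
    have h8 := rk2 k l _ hm₀B.indep h6
    rw [encard_S, LB_three 1 m₀ hm₀] at h8
    exact absurd h8 (by decide)
  -- the type of the matroid
  obtain ⟨i, hi1, hi2⟩ : ∃ i : Fin 5, (∀ j : Fin 4, j.1 ≠ i.1 → N'.IsBase (S (15 - 2 ^ (j : ℕ)))) ∧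
      ¬ N'.IsBase (S (15 - 2 ^ (i : ℕ))) := by
    by_cases h : ∀ j : Fin 4, N'.IsBase (S (15 - 2 ^ (j : ℕ)))
    · refine ⟨4, fun j _ => h j, fun hB => ?_⟩
      obtain ⟨m, hm, he⟩ := hM1 _ hB
      have h1 := LB_three 1 m hm
      rw [← ncard_S, ← he, ncard_S] at h1
      exact absurd h1 (by decide)
    · push Not at h
      obtain ⟨i, hi⟩ := h
      refine ⟨⟨i.1, by omega⟩, fun j hj => htwo i j (fun e => hj (congrArg Fin.val e).symm) hi, hi⟩
  have hNT : N' = MT i := by
    refine Matroid.ext_isBase (by rw [hNE']; rfl) fun B _ => ?_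
    constructor
    · intro hB
      obtain ⟨m, hm, rfl⟩ := hM1 B hB
      refine ⟨m, ?_, rfl⟩
      have h1 : ∀ i : Fin 5, ∀ m ∈ LB 1, m ∈ TL i ∨ m = 15 - 2 ^ (i : ℕ) := by decide +kernel
      rcases h1 i m hm with h2 | h2
      · exact h2
      · rw [h2] at hB
        exact absurd hB hi2
    · rintro ⟨m, hm, rfl⟩
      have h1 : ∀ i : Fin 5, ∀ m ∈ TL i, m ∈ FL ∨ ∃ j : Fin 4, j.1 ≠ i.1 ∧
          m = 15 - 2 ^ (j : ℕ) := by decide +kernel
      rcases h1 i m hm with h2 | ⟨j, hj, rfl⟩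
      · exact hb m h2
      · exact hi1 j hj
  rw [hNT]
  exact not_indecomposable i

end Pool.Agent.H95MS
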