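import Pool.Agent.H95MS.Cplx

set_option autoImplicit false

/-!
# Matroids on nine elements given by a list of bit masks
-/

namespace Pool.Agent.H95MS

open Set

/-- The subset of `Fin 9` with bit mask `m`. -/
def S (m : ℕ) : Set (Fin 9) := {i | m.testBit i = true}

theorem mem_S {m : ℕ} {i : Fin 9} : i ∈ S m ↔ m.testBit i = true := Iff.rfl

instance {m : ℕ} {i : Fin 9} : Decidable (i ∈ S m) :=
  inferInstanceAs (Decidable (m.testBit i = true))

/-- `r` is the mask of `insert b (S m \ {a})` -/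
def isRepl (m a b r : ℕ) : Bool :=
  (List.range 9).all fun i => r.testBit i == ((i == b) || (m.testBit i && !(i == a)))

/-- Boolean check of the exchange property. -/
def exchB (p : ℕ → Bool) (L : List ℕ) : Bool :=
  L.all fun m => L.all fun k => (List.range 9).all fun a =>
    !(m.testBit a && !k.testBit a) || (List.range 9).any fun b =>
      (k.testBit b && !m.testBit b) && (p (m - 2 ^ a + 2 ^ b) && isRepl m a b (m - 2 ^ a + 2 ^ b))

theorem S_of_isRepl {m r : ℕ} {a b : ℕ} (h : isRepl m a b r = true) :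
    ∀ i : Fin 9, i ∈ S r ↔ (i : ℕ) = b ∨ (i ∈ S m ∧ (i : ℕ) ≠ a) := by
  intro i
  unfold isRepl at h
  rw [List.all_eq_true] at h
  have := h i (List.mem_range.mpr i.2)
  rw [mem_S, mem_S]
  simp only [beq_iff_eq] at this
  rw [this]
  simp

theorem exch_of {p : ℕ → Bool} {L : List ℕ} (h : exchB p L = true)
    (hp : ∀ m, p m = true → m ∈ L) :
    Matroid.ExchangeProperty (fun B : Set (Fin 9) => ∃ m ∈ L, B = S m) := by
  rintro _ _ ⟨m, hm, rfl⟩ ⟨k, hk, rfl⟩ a ⟨ha, ha'⟩
  unfold exchB at h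
  rw [List.all_eq_true] at h
  have h1 := h m hm
  rw [List.all_eq_true] at h1
  have h2 := h1 k hk
  rw [List.all_eq_true] at h2
  have h3 := h2 a (List.mem_range.mpr a.2)
  rw [mem_S] at ha ha'
  simp only [ha, ha', Bool.true_and, Bool.or_eq_true, Bool.not_eq_eq_eq_not,
    Bool.not_true, Bool.not_false, List.any_eq_true, List.mem_range, Bool.and_eq_true] at h3
  simp at h3
  obtain ⟨b, hb, ⟨hb1, hb2⟩, hb3, hb4⟩ := h3
  refine ⟨⟨b, hb⟩, ⟨hb1, ?_⟩, _, hp _ hb3, ?_⟩
  · rw [mem_S]
    simp [hb2]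
  · ext i
    rw [S_of_isRepl hb4 i, mem_insert_iff, mem_sdiff, mem_singleton_iff, Fin.ext_iff, Fin.ext_iff]

/-- The matroid whose bases have the masks in `L`. -/
def matOf (p : ℕ → Bool) (L : List ℕ) (hne : L ≠ []) (h : exchB p L = true)
    (hp : ∀ m, p m = true → m ∈ L) : Matroid (Fin 9) :=
  Matroid.ofIsBaseOfFinite (E := univ) finite_univ (fun B : Set (Fin 9) => ∃ m ∈ L, B = S m)
    (by
      obtain ⟨m, hm⟩ := List.exists_mem_of_ne_nil L hne
      exact ⟨_, m, hm, rfl⟩)
    (exch_of h hp) (fun _ _ => subset_univ _)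

theorem matOf_isBase {p : ℕ → Bool} {L : List ℕ} {hne : L ≠ []} {h : exchB p L = true}
    {hp : ∀ m, p m = true → m ∈ L} {B : Set (Fin 9)} :
    (matOf p L hne h hp).IsBase B ↔ ∃ m ∈ L, B = S m := Iff.rfl

theorem matOf_E {p : ℕ → Bool} {L : List ℕ} {hne : L ≠ []} {h : exchB p L = true}
    {hp : ∀ m, p m = true → m ∈ L} : (matOf p L hne h hp).E = univ := rfl

theorem vec_S {m : ℕ} (i : Fin 9) : vec (S m) i = ((m.testBit i).toNat : ℝ) := by
  unfold vec
  by_cases h : m.testBit i = true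
  · rw [indicator_of_mem (show i ∈ S m from h)]
    simp [h]
  · rw [indicator_of_notMem (show i ∉ S m from h)]
    simp [h]

/-- number of bits -/
def pc (m : ℕ) : ℕ := (m.testBit 0).toNat + (m.testBit 1).toNat + (m.testBit 2).toNat +
  (m.testBit 3).toNat + (m.testBit 4).toNat + (m.testBit 5).toNat + (m.testBit 6).toNat +
  (m.testBit 7).toNat + (m.testBit 8).toNat

theorem pc_eq (m : ℕ) : pc m = ∑ i : Fin 9, (m.testBit i).toNat := by
  unfold pc
  simp only [Fin.sum_univ_succ, Fin.sum_univ_zero]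
  simp [Fin.succ]
  ring

/-- the sum of the coordinates in the set with mask `H` -/
noncomputable def fM (H : ℕ) : (Fin 9 → ℝ) →ₗ[ℝ] ℝ :=
  ∑ i : Fin 9, ((H.testBit i).toNat : ℝ) • LinearMap.proj i

theorem fM_apply (H : ℕ) (x : Fin 9 → ℝ) : fM H x = ∑ i : Fin 9, ((H.testBit i).toNat : ℝ) * x i := by
  unfold fM
  simp

theorem fM_S (H m : ℕ) : fM H (vec (S m)) = (pc (H &&& m) : ℝ) := by
  rw [fM_apply, pc_eq]
  push_cast
  refine Finset.sum_congr rfl fun i _ => ?_
  rw [vec_S, Nat.testBit_and]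
  cases H.testBit i <;> cases m.testBit i <;> simp

/-- the points of the cube with coordinate sum three -/
def Box (x : Fin 9 → ℝ) : Prop := (∀ i, 0 ≤ x i ∧ x i ≤ 1) ∧ fM 511 x = 3

theorem tb511 (i : Fin 9) : (511 : ℕ).testBit i = true := by
  revert i
  decide

theorem fM_le_all {x : Fin 9 → ℝ} (hx : Box x) (H : ℕ) : fM H x ≤ 3 := by
  rw [← hx.2, fM_apply, fM_apply]
  refine Finset.sum_le_sum fun i _ => ?_
  rw [tb511]
  have := (hx.1 i).1
  cases H.testBit i <;> simp [this]

theorem fM_le_card {x : Fin 9 → ℝ} (hx : Box x) (H : ℕ) : fM H x ≤ pc H := by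
  rw [fM_apply, pc_eq]
  push_cast
  refine Finset.sum_le_sum fun i _ => ?_
  have := (hx.1 i).2
  cases H.testBit i <;> simp [this]

theorem fM_nonneg {x : Fin 9 → ℝ} (hx : Box x) (H : ℕ) : 0 ≤ fM H x := by
  rw [fM_apply]
  refine Finset.sum_nonneg fun i _ => ?_
  have := (hx.1 i).1
  cases H.testBit i <;> simp [this]

theorem fM_union_inter (x : Fin 9 → ℝ) (a b : ℕ) :
    fM a x + fM b x = fM (a ||| b) x + fM (a &&& b) x := by
  simp only [fM_apply]
  rw [← Finset.sum_add_distrib, ← Finset.sum_add_distrib]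
  refine Finset.sum_congr rfl fun i _ => ?_
  rw [Nat.testBit_and, Nat.testBit_or]
  cases a.testBit i <;> cases b.testBit i <;> simp

/-- the sum over a set is at most the size of the part outside `H` and the sum over `H` -/
theorem fM_split {x : Fin 9 → ℝ} (hx : Box x) (a H : ℕ) :
    fM a x ≤ pc (a &&& (H ^^^ 511)) + fM H x := by
  have h1 : fM a x = fM (a &&& (H ^^^ 511)) x + fM (a &&& H) x := by
    simp only [fM_apply]
    rw [← Finset.sum_add_distrib]
    refine Finset.sum_congr rfl fun i _ => ?_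
    rw [Nat.testBit_and, Nat.testBit_and, Nat.testBit_xor, tb511]
    cases a.testBit i <;> cases H.testBit i <;> simp
  have h2 : fM (a &&& H) x ≤ fM H x := by
    simp only [fM_apply]
    refine Finset.sum_le_sum fun i _ => ?_
    rw [Nat.testBit_and]
    have := (hx.1 i).1
    cases a.testBit i <;> cases H.testBit i <;> simp [this]
  have h3 := fM_le_card hx (a &&& (H ^^^ 511))
  linarith

/-- Boolean check that the inequalities in `cons` imply those of the rank function. -/
def chk (L : List ℕ) (cons : List (ℕ × ℕ)) : Bool :=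
  (List.range 512).all fun a => cons.any fun p => L.any fun m =>
    Nat.ble (pc (a &&& (p.1 ^^^ 511)) + p.2) (pc (a &&& m))

theorem mem_of_chk {p : ℕ → Bool} {L : List ℕ} {hne : L ≠ []} {h : exchB p L = true}
    {hp : ∀ m, p m = true → m ∈ L} (cons : List (ℕ × ℕ)) (hc : chk L cons = true)
    (h3 : ∀ m ∈ L, pc m = 3) {x : Fin 9 → ℝ} (hx : Box x)
    (hcons : ∀ p ∈ cons, fM p.1 x ≤ (p.2 : ℝ)) : x ∈ polytope (matOf p L hne h hp) := by
  refine mem_polytope_of_rank _ matOf_E x ?_ ?_
  · intro A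
    set a : ℕ := Nat.ofBits (fun i : Fin 9 => decide (i ∈ A)) with ha
    have hbit : ∀ i : Fin 9, a.testBit i = decide (i ∈ A) := by
      intro i
      rw [ha, Nat.testBit_ofBits_lt _ _ i.2]
    have hlt : a < 512 := by
      have := Nat.ofBits_lt_two_pow (fun i : Fin 9 => decide (i ∈ A))
      simpa [ha] using this
    unfold chk at hc
    rw [List.all_eq_true] at hc
    have h1 := hc a (List.mem_range.mpr hlt)
    rw [List.any_eq_true] at h1
    obtain ⟨q, hq, h2⟩ := h1
    rw [List.any_eq_true] at h2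
    obtain ⟨m, hm, h4⟩ := h2
    have h5 := Nat.le_of_ble_eq_true h4
    refine ⟨S m, ⟨m, hm, rfl⟩, ?_⟩
    have e1 : ∑ i ∈ A, x i = fM a x := by
      rw [fM_apply, ← Finset.sum_subset (Finset.subset_univ A)]
      · refine Finset.sum_congr rfl fun i hi => ?_
        rw [hbit]
        simp [hi]
      · intro i _ hi
        rw [hbit]
        simp [hi]
    have e2 : ((S m ∩ (A : Set (Fin 9))).ncard : ℝ) = (pc (a &&& m) : ℝ) := by
      rw [← sum_vec, ← fM_S, fM_apply, ← Finset.sum_subset (Finset.subset_univ A)]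
      · refine Finset.sum_congr rfl fun i hi => ?_
        rw [hbit]
        simp [hi]
      · intro i _ hi
        rw [hbit]
        simp [hi]
    rw [e1, e2]
    have h6 := fM_split hx a q.1
    have h7 := hcons q hq
    have h8 : ((pc (a &&& (q.1 ^^^ 511)) + q.2 : ℕ) : ℝ) ≤ (pc (a &&& m) : ℝ) := by
      exact_mod_cast h5
    push_cast at h8
    linarith
  · rintro B ⟨m, hm, rfl⟩
    have e1 : ∑ i, x i = fM 511 x := by
      rw [fM_apply]
      refine Finset.sum_congr rfl fun i _ => ?_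
      rw [tb511]
      simp
    have e2 : ((S m).ncard : ℝ) = (pc m : ℝ) := by
      have := sum_vec Finset.univ (S m)
      rw [Finset.coe_univ, inter_univ] at this
      rw [← this, pc_eq]
      push_cast
      exact Finset.sum_congr rfl fun i _ => vec_S i
    rw [e1, e2, hx.2, h3 m hm]
    norm_num

theorem le_of_list {p : ℕ → Bool} {L : List ℕ} {hne : L ≠ []} {h : exchB p L = true}
    {hp : ∀ m, p m = true → m ∈ L} (H c : ℕ) (hc : ∀ m ∈ L, pc (H &&& m) ≤ c)
    {x : Fin 9 → ℝ} (hx : x ∈ polytope (matOf p L hne h hp)) : fM H x ≤ c := by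
  refine le_of_mem (fM H) c ?_ hx
  rintro B ⟨m, hm, rfl⟩
  rw [fM_S]
  exact_mod_cast hc m hm

theorem ge_of_list {p : ℕ → Bool} {L : List ℕ} {hne : L ≠ []} {h : exchB p L = true}
    {hp : ∀ m, p m = true → m ∈ L} (H c : ℕ) (hc : ∀ m ∈ L, c ≤ pc (H &&& m))
    {x : Fin 9 → ℝ} (hx : x ∈ polytope (matOf p L hne h hp)) : (c : ℝ) ≤ fM H x := by
  have := le_of_mem (-(fM H)) (-(c : ℝ)) (M := matOf p L hne h hp) ?_ hx
  · rw [LinearMap.neg_apply] at this
    linarith
  · rintro B ⟨m, hm, rfl⟩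
    rw [LinearMap.neg_apply, fM_S]
    have := hc m hm
    have : (c : ℝ) ≤ (pc (H &&& m) : ℝ) := by exact_mod_cast this
    linarith

theorem box_of_list {p : ℕ → Bool} {L : List ℕ} {hne : L ≠ []} {h : exchB p L = true}
    {hp : ∀ m, p m = true → m ∈ L} (h3 : ∀ m ∈ L, pc (511 &&& m) = 3)
    {x : Fin 9 → ℝ} (hx : x ∈ polytope (matOf p L hne h hp)) : Box x := by
  refine ⟨fun i => mem_cube hx i, ?_⟩
  have h1 := le_of_list (hne := hne) (h := h) (hp := hp) 511 3 (fun m hm => (h3 m hm).le) hx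
  have h2 := ge_of_list (hne := hne) (h := h) (hp := hp) 511 3 (fun m hm => (h3 m hm).ge) hx
  push_cast at h1 h2
  linarith

end Pool.Agent.H95MS
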