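import Pool.Agent.H95MS.Sub0

set_option autoImplicit false

/-!
# The decomposable matroids on the other side of the facet of the line with four elements

`TL 4` are the bases of the matroid in which `4, ..., 8` are parallel and which otherwise has no
dependencies; for `i < 4`, `TL i` lacks the basis `{0, 1, 2, 3} \ {i}`.
-/

namespace Pool.Agent.H95MS

open Set

/-- the bases of the matroids beyond the facet -/
def TL : Fin 5 → List ℕ := ![
    [7, 11, 13, 19, 21, 22, 25, 26, 28, 35, 37, 38, 41, 42, 44, 67, 69, 70, 73, 74, 76, 131,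
    133, 134, 137, 138, 140, 259, 261, 262, 265, 266, 268],
    [7, 11, 14, 19, 21, 22, 25, 26, 28, 35, 37, 38, 41, 42, 44, 67, 69, 70, 73, 74, 76, 131,
    133, 134, 137, 138, 140, 259, 261, 262, 265, 266, 268],
    [7, 13, 14, 19, 21, 22, 25, 26, 28, 35, 37, 38, 41, 42, 44, 67, 69, 70, 73, 74, 76, 131,
    133, 134, 137, 138, 140, 259, 261, 262, 265, 266, 268],
    [11, 13, 14, 19, 21, 22, 25, 26, 28, 35, 37, 38, 41, 42, 44, 67, 69, 70, 73, 74, 76, 131,
    133, 134, 137, 138, 140, 259, 261, 262, 265, 266, 268],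
    [7, 11, 13, 14, 19, 21, 22, 25, 26, 28, 35, 37, 38, 41, 42, 44, 67, 69, 70, 73, 74, 76, 131,
    133, 134, 137, 138, 140, 259, 261, 262, 265, 266, 268]]

/-- the bases of the two parts -/
def TP : Fin 5 → Bool → List ℕ := ![
    fun s => if s then
      [7, 11, 13, 19, 21, 22, 26, 28, 35, 37, 38, 42, 44, 67, 69, 70, 74, 76, 131, 133, 134,
      138, 140, 259, 261, 262, 266, 268]
      else
      [11, 13, 19, 21, 25, 26, 28, 35, 37, 41, 42, 44, 67, 69, 73, 74, 76, 131, 133, 137, 138,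
      140, 259, 261, 265, 266, 268],
    fun s => if s then
      [7, 11, 14, 21, 22, 25, 26, 28, 37, 38, 41, 42, 44, 69, 70, 73, 74, 76, 133, 134, 137,
      138, 140, 261, 262, 265, 266, 268]
      else
      [7, 11, 19, 21, 22, 25, 26, 35, 37, 38, 41, 42, 67, 69, 70, 73, 74, 131, 133, 134, 137,
      138, 259, 261, 262, 265, 266],
    fun s => if s then
      [7, 13, 14, 19, 21, 25, 26, 28, 35, 37, 41, 42, 44, 67, 69, 73, 74, 76, 131, 133, 137,
      138, 140, 259, 261, 265, 266, 268]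
      else
      [7, 14, 19, 21, 22, 26, 28, 35, 37, 38, 42, 44, 67, 69, 70, 74, 76, 131, 133, 134, 138,
      140, 259, 261, 262, 266, 268],
    fun s => if s then
      [11, 13, 14, 19, 21, 22, 25, 26, 35, 37, 38, 41, 42, 67, 69, 70, 73, 74, 131, 133, 134,
      137, 138, 259, 261, 262, 265, 266]
      else
      [13, 14, 21, 22, 25, 26, 28, 37, 38, 41, 42, 44, 69, 70, 73, 74, 76, 133, 134, 137, 138,
      140, 261, 262, 265, 266, 268],
    fun s => if s then
      [7, 11, 13, 14, 19, 21, 22, 26, 28, 35, 37, 38, 42, 44, 67, 69, 70, 74, 76, 131, 133, 134,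
      138, 140, 259, 261, 262, 266, 268]
      else
      [11, 13, 19, 21, 25, 26, 28, 35, 37, 41, 42, 44, 67, 69, 73, 74, 76, 131, 133, 137, 138,
      140, 259, 261, 265, 266, 268]]

/-- the pair whose coordinate sum is `1` on the wall -/
def BC : Fin 5 → ℕ := ![6, 12, 9, 3, 6]

theorem TL_ne : ∀ i, TL i ≠ [] := by decide +kernel

theorem TL_exch : ∀ i, exchB (fun m => (TL i).contains m) (TL i) = true := by decide +kernel

theorem TL_three' : ∀ i, ∀ m ∈ TL i, pc (511 &&& m) = 3 := by decide +kernel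

theorem TP_ne : ∀ i s, TP i s ≠ [] := by decide +kernel

theorem TP_exch : ∀ i s, exchB (fun m => (TP i s).contains m) (TP i s) = true := by
  decide +kernel

theorem TP_three : ∀ i s, ∀ m ∈ TP i s, pc m = 3 := by decide +kernel

/-- the matroids beyond the facet -/
def MT (i : Fin 5) : Matroid (Fin 9) := matOf (fun m => (TL i).contains m) (TL i) (TL_ne i)
  (TL_exch i) (fun m h => by simpa using h)

/-- the two parts -/
def MP (i : Fin 5) (s : Bool) : Matroid (Fin 9) := matOf (fun m => (TP i s).contains m) (TP i s)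
  (TP_ne i s) (TP_exch i s) (fun m h => by simpa using h)

/-- the inequalities for the parts -/
def consT (i : Fin 5) (s : Bool) : List (ℕ × ℕ) :=
  if s then [(511, 3), (0, 0), (496, 1), (511 ^^^ BC i, 2), (15 - 2 ^ (i : ℕ), 2)]
  else [(511, 3), (0, 0), (496, 1), (BC i, 1), (BC i ||| 496, 2), (15 - 2 ^ (i : ℕ), 2)]

theorem chkT : ∀ i s, chk (TP i s) (consT i s) = true := by decide +kernel

theorem TP_sub : ∀ i s, ∀ m ∈ TP i s, m ∈ TL i := by decide +kernel

theorem MP_sub (i : Fin 5) (s : Bool) : polytope (MP i s) ⊆ polytope (MT i) := by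
  refine polytope_mono ?_
  rintro _ ⟨m, hm, rfl⟩
  exact ⟨m, TP_sub i s m hm, rfl⟩

theorem MP_false_le (i : Fin 5) {x : Fin 9 → ℝ} (hx : x ∈ polytope (MP i false)) :
    fM (BC i) x ≤ 1 := by
  have h1 : ∀ i, ∀ m ∈ TP i false, pc (BC i &&& m) ≤ 1 := by decide +kernel
  have := le_of_list (BC i) 1 (h1 i) hx
  exact_mod_cast this

theorem MP_true_ge (i : Fin 5) {x : Fin 9 → ℝ} (hx : x ∈ polytope (MP i true)) :
    1 ≤ fM (BC i) x := by
  have h1 : ∀ i, ∀ m ∈ TP i true, 1 ≤ pc (BC i &&& m) := by decide +kernel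
  have := ge_of_list (BC i) 1 (h1 i) hx
  exact_mod_cast this

theorem MT_box (i : Fin 5) {x : Fin 9 → ℝ} (hx : x ∈ polytope (MT i)) : Box x :=
  box_of_list (TL_three' i) hx

theorem MT_496 (i : Fin 5) {x : Fin 9 → ℝ} (hx : x ∈ polytope (MT i)) : fM 496 x ≤ 1 := by
  have h1 : ∀ i, ∀ m ∈ TL i, pc (496 &&& m) ≤ 1 := by decide +kernel
  have := le_of_list 496 1 (h1 i) hx
  exact_mod_cast this

theorem MT_tri (i : Fin 5) {x : Fin 9 → ℝ} (hx : x ∈ polytope (MT i)) :
    fM (15 - 2 ^ (i : ℕ)) x ≤ 2 := by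
  have h1 : ∀ i : Fin 5, ∀ m ∈ TL i, pc ((15 - 2 ^ (i : ℕ)) &&& m) ≤ 2 := by decide +kernel
  have := le_of_list (15 - 2 ^ (i : ℕ)) 2 (h1 i) hx
  exact_mod_cast this

theorem mem_false (i : Fin 5) {x : Fin 9 → ℝ} (hx : x ∈ polytope (MT i)) (h : fM (BC i) x ≤ 1) :
    x ∈ polytope (MP i false) := by
  have hb := MT_box i hx
  refine mem_of_chk _ (chkT i false) (TP_three i false) hb ?_
  intro p hp
  simp only [consT, Bool.false_eq_true, if_false, List.mem_cons, List.not_mem_nil, or_false] at hp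
  rcases hp with rfl | rfl | rfl | rfl | rfl | rfl
  · exact_mod_cast hb.2.le
  · rw [fM_zero]
    simp
  · simpa using MT_496 i hx
  · simpa using h
  · have h1 := fM_union_inter x (BC i) 496
    have h2 := fM_nonneg hb (BC i &&& 496)
    have h3 := MT_496 i hx
    push_cast
    linarith
  · exact_mod_cast MT_tri i hx

theorem mem_true (i : Fin 5) {x : Fin 9 → ℝ} (hx : x ∈ polytope (MT i)) (h : 1 ≤ fM (BC i) x) :
    x ∈ polytope (MP i true) := by
  have hb := MT_box i hx
  refine mem_of_chk _ (chkT i true) (TP_three i true) hb ?_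
  intro p hp
  simp only [consT, if_true, List.mem_cons, List.not_mem_nil, or_false] at hp
  rcases hp with rfl | rfl | rfl | rfl | rfl
  · exact_mod_cast hb.2.le
  · rw [fM_zero]
    simp
  · simpa using MT_496 i hx
  · have := fM_compl hb (BC i)
    push_cast
    linarith
  · exact_mod_cast MT_tri i hx

theorem mem_false_iff (i : Fin 5) {x : Fin 9 → ℝ} :
    x ∈ polytope (MP i false) ↔ x ∈ polytope (MT i) ∧ fM (BC i) x ≤ 1 :=
  ⟨fun h => ⟨MP_sub i false h, MP_false_le i h⟩, fun h => mem_false i h.1 h.2⟩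

theorem mem_true_iff (i : Fin 5) {x : Fin 9 → ℝ} :
    x ∈ polytope (MP i true) ↔ x ∈ polytope (MT i) ∧ 1 ≤ fM (BC i) x :=
  ⟨fun h => ⟨MP_sub i true h, MP_true_ge i h⟩, fun h => mem_true i h.1 h.2⟩

theorem compatT (i : Fin 5) (s t : Bool) :
    IsFace (polytope (MP i s)) (polytope (MP i s) ∩ polytope (MP i t)) := by
  have hf := isFace_of_le (convex_polytope (MP i false)) (fM (BC i)) 1
    (fun x hx => MP_false_le i hx)
  have ht := face_ge (convex_polytope (MP i true)) (BC i) 1 (fun x hx => MP_true_ge i hx)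
  cases s <;> cases t
  · rw [inter_self]
    exact IsFace.refl (convex_polytope _)
  · convert hf using 1
    ext x
    constructor
    · rintro ⟨h1, h2⟩
      exact ⟨h1, le_antisymm (MP_false_le i h1) (MP_true_ge i h2)⟩
    · rintro ⟨h1, h2⟩
      exact ⟨h1, (mem_true_iff i).mpr ⟨MP_sub i false h1, h2.ge⟩⟩
  · convert ht using 1
    ext x
    constructor
    · rintro ⟨h1, h2⟩
      exact ⟨h1, le_antisymm (MP_false_le i h2) (MP_true_ge i h1)⟩
    · rintro ⟨h1, h2⟩
      exact ⟨h1, (mem_false_iff i).mpr ⟨MP_sub i true h1, h2.le⟩⟩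
  · rw [inter_self]
    exact IsFace.refl (convex_polytope _)

theorem unionT (i : Fin 5) : (⋃ s, polytope (MP i s)) = polytope (MT i) := by
  refine subset_antisymm (iUnion_subset (MP_sub i)) ?_
  intro x hx
  rw [mem_iUnion]
  rcases le_total (fM (BC i) x) 1 with h | h
  · exact ⟨false, mem_false i hx h⟩
  · exact ⟨true, mem_true i hx h⟩

theorem subT (i : Fin 5) :
    IsMatroidSubdivision (polytope (MT i)) {F | ∃ s, IsFace (polytope (MP i s)) F} :=
  subdivision_of (MP i) (fun _ => rfl) _ (unionT i) (fun _ hx => (MT_box i hx).1) (compatT i)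

/-- the matroids beyond the facet are decomposable -/
theorem not_indecomposable (i : Fin 5) : ¬ Indecomposable (MT i) := by
  intro h
  have h1 := h _ (subT i)
  have h2 : polytope (MT i) ∈ {F | ∃ s, IsFace (polytope (MP i s)) F} := by
    rw [h1]
    exact IsFace.refl (convex_polytope _)
  obtain ⟨s, hs⟩ := h2
  have hsub := hs.2.subset
  cases s
  · have h3 : ∀ i, ∃ m ∈ TL i, pc (BC i &&& m) = 2 := by decide +kernel
    obtain ⟨m, hm, hm2⟩ := h3 i
    have h4 := MP_false_le i (hsub (vec_mem_polytope (M := MT i) ⟨m, hm, rfl⟩))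
    rw [fM_S, hm2] at h4
    norm_num at h4
  · have h3 : ∀ i, ∃ m ∈ TL i, pc (BC i &&& m) = 0 := by decide +kernel
    obtain ⟨m, hm, hm2⟩ := h3 i
    have h4 := MP_true_ge i (hsub (vec_mem_polytope (M := MT i) ⟨m, hm, rfl⟩))
    rw [fM_S, hm2] at h4
    norm_num at h4

end Pool.Agent.H95MS
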