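import Pool.Agent.H95MS.Mask

set_option autoImplicit false

/-!
# A matroid subdivision of the hypersimplex of three-subsets of nine elements

The matroid of the cell `0` has the line `{0, 1, 2, 3}` and eight lines with three elements; it
consists of the points of a regular pentagon `4, ..., 8` and four of the five directions of its
sides. The other cells are `x(l) ≥ 2` for the nine lines `l`.
-/

namespace Pool.Agent.H95MS

open Set

/-- the nine lines -/
def LN : Fin 9 → ℕ := ![15, 289, 193, 82, 386, 164, 276, 328, 56]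

/-- the bases of the cells -/
def LB : Fin 10 → List ℕ := ![
    [19, 21, 22, 25, 26, 28, 35, 37, 38, 41, 42, 44, 49, 50, 52, 67, 69, 70, 73, 74, 76, 81, 84,
    88, 97, 98, 100, 104, 112, 131, 133, 134, 137, 138, 140, 145, 146, 148, 152, 161, 162, 168,
    176, 194, 196, 200, 208, 224, 259, 261, 262, 265, 266, 268, 273, 274, 280, 290, 292, 296,
    304, 321, 322, 324, 336, 352, 385, 388, 392, 400, 416, 448],
    [7, 11, 13, 14, 19, 21, 22, 25, 26, 28, 35, 37, 38, 41, 42, 44, 67, 69, 70, 73, 74, 76, 131,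
    133, 134, 137, 138, 140, 259, 261, 262, 265, 266, 268],
    [35, 37, 41, 49, 97, 161, 259, 261, 265, 273, 289, 290, 292, 296, 304, 321, 352, 385, 416],
    [67, 69, 73, 81, 97, 131, 133, 137, 145, 161, 193, 194, 196, 200, 208, 224, 321, 385, 448],
    [19, 22, 26, 50, 67, 70, 74, 81, 82, 84, 88, 98, 112, 146, 194, 208, 274, 322, 336],
    [131, 134, 138, 146, 162, 194, 259, 262, 266, 274, 290, 322, 385, 386, 388, 392, 400, 416,
    448],
    [37, 38, 44, 52, 100, 133, 134, 140, 148, 161, 162, 164, 168, 176, 196, 224, 292, 388, 416],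
    [21, 22, 28, 52, 84, 148, 261, 262, 268, 273, 274, 276, 280, 292, 304, 324, 336, 388, 400],
    [73, 74, 76, 88, 104, 200, 265, 266, 268, 280, 296, 321, 322, 324, 328, 336, 352, 392, 448],
    [25, 26, 28, 41, 42, 44, 49, 50, 52, 56, 88, 104, 112, 152, 168, 176, 280, 296, 304]]

theorem LB_ne : ∀ i, LB i ≠ [] := by decide +kernel

theorem LB_exch : ∀ i, exchB (fun m => (LB i).contains m) (LB i) = true := by decide +kernel

theorem LB_three : ∀ i, ∀ m ∈ LB i, pc m = 3 := by decide +kernel

theorem LB_three' : ∀ i, ∀ m ∈ LB i, pc (511 &&& m) = 3 := by decide +kernel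

/-- the matroids of the cells -/
def MB (i : Fin 10) : Matroid (Fin 9) := matOf (fun m => (LB i).contains m) (LB i) (LB_ne i)
  (LB_exch i) (fun m h => by simpa using h)

/-- the inequalities for the cell `0` -/
def cons0 : List (ℕ × ℕ) := (511, 3) :: (0, 0) :: (List.finRange 9).map fun j => (LN j, 2)

theorem chk0 : chk (LB 0) cons0 = true := by decide +kernel

theorem chkj : ∀ j : Fin 9, chk (LB j.succ) [(511, 3), (0, 0), (511 ^^^ LN j, 1)] = true := by
  decide +kernel

theorem fM_zero (x : Fin 9 → ℝ) : fM 0 x = 0 := by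
  rw [fM_apply]
  simp

theorem fM_compl {x : Fin 9 → ℝ} (hx : Box x) (H : ℕ) : fM (511 ^^^ H) x + fM H x = 3 := by
  rw [← hx.2]
  simp only [fM_apply]
  rw [← Finset.sum_add_distrib]
  refine Finset.sum_congr rfl fun i _ => ?_
  rw [Nat.testBit_xor, tb511]
  cases H.testBit i <;> simp

/-- the inequalities of the cell `0` -/
theorem mem_cell0 {x : Fin 9 → ℝ} : x ∈ polytope (MB 0) ↔ Box x ∧ ∀ j, fM (LN j) x ≤ 2 := by
  constructor
  · intro hx
    refine ⟨box_of_list (LB_three' 0) hx, fun j => ?_⟩
    have h1 : ∀ j, ∀ m ∈ LB 0, pc (LN j &&& m) ≤ 2 := by decide +kernel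
    have := le_of_list (LN j) 2 (h1 j) hx
    exact_mod_cast this
  · rintro ⟨hb, hx⟩
    refine mem_of_chk cons0 chk0 (LB_three 0) hb ?_
    intro p hp
    unfold cons0 at hp
    rcases List.mem_cons.mp hp with rfl | hp
    · exact_mod_cast hb.2.le
    rcases List.mem_cons.mp hp with rfl | hp
    · rw [fM_zero]
      simp
    · obtain ⟨j, -, rfl⟩ := List.mem_map.mp hp
      exact_mod_cast hx j

/-- the inequalities of the other cells -/
theorem mem_cellj {x : Fin 9 → ℝ} (j : Fin 9) :
    x ∈ polytope (MB j.succ) ↔ Box x ∧ 2 ≤ fM (LN j) x := by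
  constructor
  · intro hx
    refine ⟨box_of_list (LB_three' j.succ) hx, ?_⟩
    have h1 : ∀ j : Fin 9, ∀ m ∈ LB j.succ, 2 ≤ pc (LN j &&& m) := by decide +kernel
    have := ge_of_list (LN j) 2 (h1 j) hx
    exact_mod_cast this
  · rintro ⟨hb, hx⟩
    refine mem_of_chk _ (chkj j) (LB_three j.succ) hb ?_
    intro p hp
    rcases List.mem_cons.mp hp with rfl | hp
    · exact_mod_cast hb.2.le
    rcases List.mem_cons.mp hp with rfl | hp
    · rw [fM_zero]
      simp
    rcases List.mem_cons.mp hp with rfl | hp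
    · have := fM_compl hb (LN j)
      push_cast
      linarith
    · exact absurd hp (by simp)

theorem two_lines {x : Fin 9 → ℝ} (hx : Box x) {j k : Fin 9} (hjk : j ≠ k) :
    fM (LN j) x + fM (LN k) x ≤ 4 := by
  rw [fM_union_inter]
  have h1 := fM_le_all hx (LN j ||| LN k)
  have h2 := fM_le_card hx (LN j &&& LN k)
  have h3 : ∀ j k : Fin 9, j ≠ k → pc (LN j &&& LN k) ≤ 1 := by decide +kernel
  have h4 : (pc (LN j &&& LN k) : ℝ) ≤ 1 := by exact_mod_cast h3 j k hjk
  linarith

theorem face_ge {P : Set (Fin 9 → ℝ)} (hP : Convex ℝ P) (H : ℕ) (c : ℝ)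
    (h : ∀ x ∈ P, c ≤ fM H x) : IsFace P {x | x ∈ P ∧ fM H x = c} := by
  have h1 := isFace_of_le hP (-(fM H)) (-c) (fun x hx => by
    rw [LinearMap.neg_apply]
    linarith [h x hx])
  convert h1 using 2
  ext x
  rw [LinearMap.neg_apply, neg_inj]

theorem compat (i j : Fin 10) :
    IsFace (polytope (MB i)) (polytope (MB i) ∩ polytope (MB j)) := by
  induction i using Fin.cases with
  | zero =>
    induction j using Fin.cases with
    | zero =>
      rw [inter_self]
      exact IsFace.refl (convex_polytope _)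
    | succ j =>
      have h1 := isFace_of_le (convex_polytope (MB 0)) (fM (LN j)) 2
        (fun x hx => (mem_cell0.mp hx).2 j)
      convert h1 using 1
      ext x
      constructor
      · rintro ⟨h2, h3⟩
        exact ⟨h2, le_antisymm ((mem_cell0.mp h2).2 j) ((mem_cellj j).mp h3).2⟩
      · rintro ⟨h2, h3⟩
        exact ⟨h2, (mem_cellj j).mpr ⟨(mem_cell0.mp h2).1, h3.ge⟩⟩
  | succ i =>
    have hi := face_ge (convex_polytope (MB i.succ)) (LN i) 2
      (fun x hx => ((mem_cellj i).mp hx).2)
    induction j using Fin.cases with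
    | zero =>
      convert hi using 1
      ext x
      constructor
      · rintro ⟨h2, h3⟩
        exact ⟨h2, le_antisymm ((mem_cell0.mp h3).2 i) ((mem_cellj i).mp h2).2⟩
      · rintro ⟨h2, h3⟩
        have hb := ((mem_cellj i).mp h2).1
        refine ⟨h2, mem_cell0.mpr ⟨hb, fun k => ?_⟩⟩
        by_cases hik : i = k
        · subst hik
          exact h3.le
        · have := two_lines hb hik
          linarith
    | succ j =>
      by_cases hij : i = j
      · subst hij
        rw [inter_self]
        exact IsFace.refl (convex_polytope _)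
      have h1 := isFace_of_le (convex_polytope (MB i.succ)) (fM (LN j)) 2
        (fun x hx => by
          have h2 := (mem_cellj i).mp hx
          have := two_lines h2.1 hij
          linarith [h2.2])
      have h2 := hi.inter h1
      convert h2 using 1
      ext x
      constructor
      · rintro ⟨h3, h4⟩
        have h5 := (mem_cellj i).mp h3
        have h6 := (mem_cellj j).mp h4
        have h7 := two_lines h5.1 hij
        have h8 := h5.2
        have h9 := h6.2
        exact ⟨⟨h3, by linarith⟩, ⟨h3, by linarith⟩⟩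
      · rintro ⟨⟨h3, h4⟩, ⟨-, h5⟩⟩
        exact ⟨h3, (mem_cellj j).mpr ⟨((mem_cellj i).mp h3).1, h5.ge⟩⟩

theorem ncard_S (m : ℕ) : (S m).ncard = pc m := by
  have h1 := sum_vec Finset.univ (S m)
  rw [Finset.coe_univ, inter_univ] at h1
  have h2 : ∑ i : Fin 9, vec (S m) i = (pc m : ℝ) := by
    rw [pc_eq]
    push_cast
    exact Finset.sum_congr rfl fun i _ => vec_S i
  rw [h2] at h1
  exact_mod_cast h1.symm

theorem cell_sub (i : Fin 10) : polytope (MB i) ⊆ hypersimplex 3 9 := by
  refine convexHull_mono ?_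
  rintro _ ⟨_, ⟨m, hm, rfl⟩, rfl⟩
  exact ⟨S m, by rw [ncard_S, LB_three i m hm], rfl⟩

theorem box_of_hyp {x : Fin 9 → ℝ} (hx : x ∈ hypersimplex 3 9) : Box x := by
  have hconv : Convex ℝ {x : Fin 9 → ℝ | Box x} := by
    intro x hx y hy a b ha hb hab
    refine ⟨fun i => ?_, ?_⟩
    · simp only [Pi.add_apply, Pi.smul_apply, smul_eq_mul]
      have h1 := hx.1 i
      have h2 := hy.1 i
      constructor
      · have := mul_nonneg ha h1.1
        have := mul_nonneg hb h2.1
        linarith
      · have := mul_le_mul_of_nonneg_left h1.2 ha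
        have := mul_le_mul_of_nonneg_left h2.2 hb
        linarith
    · rw [map_add, map_smul, map_smul, hx.2, hy.2, smul_eq_mul, smul_eq_mul, ← add_mul, hab,
        one_mul]
  refine convexHull_min ?_ hconv hx
  rintro _ ⟨B, hB, rfl⟩
  refine ⟨fun i => ⟨vec_nonneg B i, vec_le_one B i⟩, ?_⟩
  have h1 := sum_vec Finset.univ B
  rw [Finset.coe_univ, inter_univ, hB] at h1
  rw [fM_apply]
  simp only [tb511]
  simpa using h1

theorem union_cells : (⋃ i, polytope (MB i)) = hypersimplex 3 9 := by
  refine subset_antisymm (iUnion_subset cell_sub) ?_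
  intro x hx
  have hb := box_of_hyp hx
  rw [mem_iUnion]
  by_cases h : ∀ j, fM (LN j) x ≤ 2
  · exact ⟨0, mem_cell0.mpr ⟨hb, h⟩⟩
  · push Not at h
    obtain ⟨j, hj⟩ := h
    exact ⟨j.succ, (mem_cellj j).mpr ⟨hb, hj.le⟩⟩

/-- the subdivision -/
theorem sub0 : IsMatroidSubdivision (hypersimplex 3 9) {F | ∃ i, IsFace (polytope (MB i)) F} :=
  subdivision_of MB (fun _ => rfl) _ union_cells (fun _ hx => (box_of_hyp hx).1) compat

end Pool.Agent.H95MS
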